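import Pool.Agent.Lib.MP_32fe36_lc.Defs

/-!
Orientation determinant, triangles, and the triangle separation lemma.
-/

namespace Pool.Agent.Lib.MP_32fe36_lc

open Set

abbrev Pt : Type := ℝ × ℝ

/-- Twice the signed area of the triangle `a b c`. -/
def cr (a b c : Pt) : ℝ := (b.1 - a.1) * (c.2 - a.2) - (b.2 - a.2) * (c.1 - a.1)

theorem cr_swap12 (a b c : Pt) : cr b a c = - cr a b c := by unfold cr; ring
theorem cr_swap23 (a b c : Pt) : cr a c b = - cr a b c := by unfold cr; ring
theorem cr_rot (a b c : Pt) : cr b c a = cr a b c := by unfold cr; ring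

theorem collinear_iff_cr (a b c : Pt) : Collinear ℝ {a, b, c} ↔ cr a b c = 0 := by
  rw [collinear_iff_of_mem (p₀ := a) (by simp)]
  constructor
  · rintro ⟨v, hv⟩
    obtain ⟨r, hr⟩ := hv b (by simp)
    obtain ⟨r', hr'⟩ := hv c (by simp)
    unfold cr
    rw [hr, hr']
    simp
    ring
  · intro h
    unfold cr at h
    by_cases hb : b = a
    · refine ⟨c - a, ?_⟩
      intro q hq
      simp only [mem_insert_iff, mem_singleton_iff] at hq
      rcases hq with rfl | rfl | rfl
      · exact ⟨0, by simp⟩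
      · exact ⟨0, by simp [hb]⟩
      · exact ⟨1, by simp⟩
    · refine ⟨b - a, ?_⟩
      intro q hq
      simp only [mem_insert_iff, mem_singleton_iff] at hq
      rcases hq with rfl | rfl | rfl
      · exact ⟨0, by simp⟩
      · exact ⟨1, by simp⟩
      · by_cases h1 : b.1 - a.1 = 0
        · have h2 : b.2 - a.2 ≠ 0 := by
            intro h2
            exact hb (Prod.ext (by linarith) (by linarith))
          refine ⟨(q.2 - a.2) / (b.2 - a.2), Prod.ext ?_ ?_⟩
          · simp only [vadd_eq_add, Prod.fst_add, Prod.smul_fst, Prod.fst_sub, smul_eq_mul]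
            rw [h1] at h ⊢
            have : (b.2 - a.2) * (q.1 - a.1) = 0 := by linarith
            have := (mul_eq_zero.1 this).resolve_left h2
            linarith
          · simp only [vadd_eq_add, Prod.snd_add, Prod.smul_snd, Prod.snd_sub, smul_eq_mul]
            field_simp
            ring
        · refine ⟨(q.1 - a.1) / (b.1 - a.1), Prod.ext ?_ ?_⟩
          · simp only [vadd_eq_add, Prod.fst_add, Prod.smul_fst, Prod.fst_sub, smul_eq_mul]
            field_simp
            ring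
          · simp only [vadd_eq_add, Prod.snd_add, Prod.smul_snd, Prod.snd_sub, smul_eq_mul]
            field_simp
            linarith

theorem mem_seg {a b x : Pt} : x ∈ segment ℝ a b ↔
    ∃ t : ℝ, 0 ≤ t ∧ t ≤ 1 ∧ x.1 = a.1 + t * (b.1 - a.1) ∧ x.2 = a.2 + t * (b.2 - a.2) := by
  rw [segment_eq_image']
  constructor
  · rintro ⟨t, ⟨h0, h1⟩, rfl⟩
    exact ⟨t, h0, h1, by simp, by simp⟩
  · rintro ⟨t, h0, h1, h2, h3⟩
    exact ⟨t, ⟨h0, h1⟩, Prod.ext (by simp [h2]) (by simp [h3])⟩

/-- The closed triangle. -/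
def Tri (a b c : Pt) : Set Pt :=
  {x | ∃ u v w : ℝ, 0 ≤ u ∧ 0 ≤ v ∧ 0 ≤ w ∧ u + v + w = 1 ∧
    x.1 = u * a.1 + v * b.1 + w * c.1 ∧ x.2 = u * a.2 + v * b.2 + w * c.2}

theorem convex_tri (a b c : Pt) : Convex ℝ (Tri a b c) := by
  rintro x ⟨u, v, w, h1, h2, h3, h4, h5, h6⟩ y ⟨u', v', w', h1', h2', h3', h4', h5', h6'⟩ s t hs ht
    hst
  refine ⟨s * u + t * u', s * v + t * v', s * w + t * w', by positivity, by positivity,
    by positivity, ?_, ?_, ?_⟩
  · linear_combination s * h4 + t * h4' + hst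
  · simp only [Prod.fst_add, Prod.smul_fst, smul_eq_mul, h5, h5']; ring
  · simp only [Prod.snd_add, Prod.smul_snd, smul_eq_mul, h6, h6']; ring

theorem left_mem_tri (a b c : Pt) : a ∈ Tri a b c := ⟨1, 0, 0, by simp⟩
theorem mid_mem_tri (a b c : Pt) : b ∈ Tri a b c := ⟨0, 1, 0, by simp⟩
theorem right_mem_tri (a b c : Pt) : c ∈ Tri a b c := ⟨0, 0, 1, by simp⟩

theorem tri_rot (a b c : Pt) : Tri b c a = Tri a b c := by
  ext x
  constructor
  · rintro ⟨u, v, w, h1, h2, h3, h4, h5, h6⟩
    exact ⟨w, u, v, h3, h1, h2, by linarith, by linarith, by linarith⟩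
  · rintro ⟨u, v, w, h1, h2, h3, h4, h5, h6⟩
    exact ⟨v, w, u, h2, h3, h1, by linarith, by linarith, by linarith⟩

theorem tri_subset {s : Set Pt} (hs : Convex ℝ s) {a b c : Pt} (ha : a ∈ s) (hb : b ∈ s)
    (hc : c ∈ s) : Tri a b c ⊆ s := by
  rintro x ⟨u, v, w, h1, h2, h3, h4, h5, h6⟩
  have := hs.sum_mem (t := (Finset.univ : Finset (Fin 3))) (w := ![u, v, w]) (z := ![a, b, c])
    (by intro i _; fin_cases i <;> simpa) (by simp [Fin.sum_univ_three, h4])
    (by intro i _; fin_cases i <;> simpa)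
  have hx : x = ∑ i : Fin 3, (![u, v, w] i) • (![a, b, c] i) := by
    rw [Fin.sum_univ_three]
    exact Prod.ext (by simpa using h5) (by simpa using h6)
  rwa [hx]

theorem tri_self_subset (a c : Pt) : Tri a a c ⊆ segment ℝ a c :=
  tri_subset (convex_segment a c) (left_mem_segment ℝ a c) (left_mem_segment ℝ a c)
    (right_mem_segment ℝ a c)

/-- Caratheodory in the plane. -/
theorem exists_tri_of_mem_convexHull {s : Set Pt} {x : Pt} (hx : x ∈ convexHull ℝ s) :
    ∃ a ∈ s, ∃ b ∈ s, ∃ c ∈ s, x ∈ Tri a b c := by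
  classical
  rw [convexHull_eq_union] at hx
  simp only [mem_iUnion] at hx
  obtain ⟨t, hts, hai, hxt⟩ := hx
  have hcard : t.card ≤ 3 := by
    have h1 := hai.card_le_finrank_succ
    have h3 : Module.finrank ℝ Pt = 2 := by simp [Pt]
    rw [Fintype.card_coe] at h1
    exact h1.trans (Nat.succ_le_succ ((Submodule.finrank_le _).trans h3.le))
  have hne : t.Nonempty := by
    rcases t.eq_empty_or_nonempty with rfl | h
    · simp at hxt
    · exact h
  have key : ∃ a ∈ t, ∃ b ∈ t, ∃ c ∈ t, (t : Set Pt) ⊆ {a, b, c} := by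
    have hpos := hne.card_pos
    have : t.card = 1 ∨ t.card = 2 ∨ t.card = 3 := by omega
    rcases this with h | h | h
    · obtain ⟨a, rfl⟩ := Finset.card_eq_one.1 h
      exact ⟨a, by simp, a, by simp, a, by simp, by simp⟩
    · obtain ⟨a, b, -, rfl⟩ := Finset.card_eq_two.1 h
      exact ⟨a, by simp, b, by simp, b, by simp, by simp⟩
    · obtain ⟨a, b, c, -, -, -, rfl⟩ := Finset.card_eq_three.1 h
      exact ⟨a, by simp, b, by simp, c, by simp, by simp⟩
  obtain ⟨a, ha, b, hb, c, hc, hsub⟩ := key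
  refine ⟨a, hts ha, b, hts hb, c, hts hc, ?_⟩
  refine convexHull_min ?_ (convex_tri a b c) hxt
  intro y hy
  rcases hsub hy with rfl | rfl | rfl
  · exact left_mem_tri _ _ _
  · exact mid_mem_tri _ _ _
  · exact right_mem_tri _ _ _

theorem mem_tri_of_cr {a b c x : Pt} (h : cr a b c ≠ 0) (h1 : 0 ≤ cr x b c / cr a b c)
    (h2 : 0 ≤ cr a x c / cr a b c) (h3 : 0 ≤ cr a b x / cr a b c) : x ∈ Tri a b c := by
  refine ⟨_, _, _, h1, h2, h3, ?_, ?_, ?_⟩ <;> field_simp <;> unfold cr <;> ring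

theorem cr_of_mem_tri {a b c x : Pt} (h : cr a b c ≠ 0) (hx : x ∈ Tri a b c) :
    0 ≤ cr x b c / cr a b c ∧ 0 ≤ cr a x c / cr a b c ∧ 0 ≤ cr a b x / cr a b c := by
  obtain ⟨u, v, w, h1, h2, h3, h4, h5, h6⟩ := hx
  have hw : w = 1 - u - v := by linarith
  have e1 : cr x b c = u * cr a b c := by unfold cr; rw [h5, h6, hw]; ring
  have e2 : cr a x c = v * cr a b c := by unfold cr; rw [h5, h6, hw]; ring
  have e3 : cr a b x = w * cr a b c := by unfold cr; rw [h5, h6, hw]; ring
  rw [e1, e2, e3]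
  simp [h, h1, h2, h3]

/-- A preconnected set that avoids the sides of a triangle and meets it lies inside it. -/
theorem subset_tri {C : Set Pt} (hC : IsPreconnected C) {a b c : Pt} (h : cr a b c ≠ 0)
    (hab : Disjoint (segment ℝ a b) C) (hbc : Disjoint (segment ℝ b c) C)
    (hca : Disjoint (segment ℝ c a) C) {x : Pt} (hxC : x ∈ C) (hx : x ∈ Tri a b c) :
    C ⊆ Tri a b c := by
  let l1 : Pt → ℝ := fun y => cr y b c / cr a b c
  let l2 : Pt → ℝ := fun y => cr a y c / cr a b c
  let l3 : Pt → ℝ := fun y => cr a b y / cr a b c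
  have c1 : Continuous l1 := by unfold l1 cr; fun_prop
  have c2 : Continuous l2 := by unfold l2 cr; fun_prop
  have c3 : Continuous l3 := by unfold l3 cr; fun_prop
  have hsum : ∀ y, l1 y + l2 y + l3 y = 1 := by
    intro y; simp only [l1, l2, l3]; field_simp; unfold cr; ring
  have hx1 : ∀ y : Pt, y.1 = l1 y * a.1 + l2 y * b.1 + l3 y * c.1 := by
    intro y; simp only [l1, l2, l3]; field_simp; unfold cr; ring
  have hx2 : ∀ y : Pt, y.2 = l1 y * a.2 + l2 y * b.2 + l3 y * c.2 := by
    intro y; simp only [l1, l2, l3]; field_simp; unfold cr; ring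
  let In : Set Pt := {y | 0 < l1 y ∧ 0 < l2 y ∧ 0 < l3 y}
  let Out : Set Pt := {y | l1 y < 0 ∨ l2 y < 0 ∨ l3 y < 0}
  have oIn : IsOpen In :=
    (isOpen_lt continuous_const c1).inter
      ((isOpen_lt continuous_const c2).inter (isOpen_lt continuous_const c3))
  have oOut : IsOpen Out :=
    (isOpen_lt c1 continuous_const).union
      ((isOpen_lt c2 continuous_const).union (isOpen_lt c3 continuous_const))
  have hdis : Disjoint In Out := by
    rw [Set.disjoint_left]
    rintro y ⟨h1, h2, h3⟩ (h | h | h) <;> linarith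
  have hcov : ∀ y ∈ C, ¬ (y ∈ Out) → y ∈ In := by
    intro y hy hout
    simp only [Out, mem_ofPred_eq, not_or, not_lt] at hout
    obtain ⟨h1, h2, h3⟩ := hout
    have s := hsum y
    have e1 := hx1 y
    have e2 := hx2 y
    refine ⟨h1.lt_of_ne ?_, h2.lt_of_ne ?_, h3.lt_of_ne ?_⟩
    · intro h0
      refine Set.disjoint_left.1 hbc (mem_seg.2 ⟨l3 y, h3, by linarith, ?_, ?_⟩) hy
      · rw [e1, ← h0]; have : l2 y = 1 - l3 y := by linarith
        rw [this]; ring
      · rw [e2, ← h0]; have : l2 y = 1 - l3 y := by linarith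
        rw [this]; ring
    · intro h0
      refine Set.disjoint_left.1 hca (mem_seg.2 ⟨l1 y, h1, by linarith, ?_, ?_⟩) hy
      · rw [e1, ← h0]; have : l3 y = 1 - l1 y := by linarith
        rw [this]; ring
      · rw [e2, ← h0]; have : l3 y = 1 - l1 y := by linarith
        rw [this]; ring
    · intro h0
      refine Set.disjoint_left.1 hab (mem_seg.2 ⟨l2 y, h2, by linarith, ?_, ?_⟩) hy
      · rw [e1, ← h0]; have : l1 y = 1 - l2 y := by linarith
        rw [this]; ring
      · rw [e2, ← h0]; have : l1 y = 1 - l2 y := by linarith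
        rw [this]; ring
  have hsub : C ⊆ In ∪ Out := by
    intro y hy
    by_cases h' : y ∈ Out
    · exact Or.inr h'
    · exact Or.inl (hcov y hy h')
  have hxIn : x ∈ In := by
    obtain ⟨h1, h2, h3⟩ := cr_of_mem_tri h hx
    refine hcov x hxC ?_
    rintro (h | h | h)
    · exact absurd h (not_lt.2 h1)
    · exact absurd h (not_lt.2 h2)
    · exact absurd h (not_lt.2 h3)
  have := hC.subset_left_of_subset_union oIn oOut hdis hsub ⟨x, hxC, hxIn⟩
  intro y hy
  obtain ⟨h1, h2, h3⟩ := this hy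
  exact mem_tri_of_cr h h1.le h2.le h3.le

/-- Any point `k` together with two vertices of a triangle covers each point of the triangle. -/
theorem tri_cover (k : Pt) {a b c x : Pt} (h : cr a b c ≠ 0) (hx : x ∈ Tri a b c) :
    x ∈ Tri k b c ∨ x ∈ Tri k c a ∨ x ∈ Tri k a b := by
  obtain ⟨u, v, w, h1, h2, h3, h4, h5, h6⟩ := hx
  set u' := cr k b c / cr a b c
  set v' := cr a k c / cr a b c
  set w' := cr a b k / cr a b c
  have hs : u' + v' + w' = 1 := by simp only [u', v', w']; field_simp; unfold cr; ring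
  have k1 : k.1 = u' * a.1 + v' * b.1 + w' * c.1 := by
    simp only [u', v', w']; field_simp; unfold cr; ring
  have k2 : k.2 = u' * a.2 + v' * b.2 + w' * c.2 := by
    simp only [u', v', w']; field_simp; unfold cr; ring
  clear_value u' v' w'
  have main : ∃ m : ℝ, 0 ≤ m ∧ m * u' ≤ u ∧ m * v' ≤ v ∧ m * w' ≤ w ∧
      (m * u' = u ∨ m * v' = v ∨ m * w' = w) := by
    let S : Set ℝ := {m | 0 ≤ m ∧ m * u' ≤ u ∧ m * v' ≤ v ∧ m * w' ≤ w}
    have hc : ∀ a b : ℝ, IsClosed {m : ℝ | m * a ≤ b} := fun a b =>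
      isClosed_le (by fun_prop) continuous_const
    have ho : ∀ a b : ℝ, IsOpen {m : ℝ | m * a < b} := fun a b =>
      isOpen_lt (by fun_prop) continuous_const
    have hS : IsClosed S := isClosed_Ici.inter ((hc _ _).inter ((hc _ _).inter (hc _ _)))
    have hb : BddAbove S := by
      refine ⟨1, ?_⟩
      rintro m ⟨m0, m1, m2, m3⟩
      have : m * (u' + v' + w') ≤ u + v + w := by linarith
      rw [hs, h4] at this; linarith
    have hne : S.Nonempty := ⟨0, by simp [S, h1, h2, h3]⟩
    obtain ⟨m0, m1, m2, m3⟩ := hS.csSup_mem hne hb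
    refine ⟨sSup S, m0, m1, m2, m3, ?_⟩
    by_contra hcon
    simp only [not_or] at hcon
    obtain ⟨n1, n2, n3⟩ := hcon
    have o : IsOpen {m : ℝ | m * u' < u ∧ m * v' < v ∧ m * w' < w} :=
      (ho _ _).inter ((ho _ _).inter (ho _ _))
    obtain ⟨e, he, hball⟩ := Metric.isOpen_iff.1 o (sSup S)
      ⟨m1.lt_of_ne n1, m2.lt_of_ne n2, m3.lt_of_ne n3⟩
    have hm : sSup S + e / 2 ∈ Metric.ball (sSup S) e := by
      rw [Metric.mem_ball, Real.dist_eq]
      rw [abs_lt]; constructor <;> linarith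
    obtain ⟨p1, p2, p3⟩ := hball hm
    have := le_csSup hb (a := sSup S + e / 2) ⟨by linarith, p1.le, p2.le, p3.le⟩
    linarith
  obtain ⟨m, m0, m1, m2, m3, hm⟩ := main
  rcases hm with hm | hm | hm
  · left
    refine ⟨m, v - m * v', w - m * w', m0, by linarith, by linarith, ?_, ?_, ?_⟩
    · linear_combination h4 - m * hs + hm
    · rw [h5, k1, ← hm]; ring
    · rw [h6, k2, ← hm]; ring
  · right; left
    refine ⟨m, w - m * w', u - m * u', m0, by linarith, by linarith, ?_, ?_, ?_⟩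
    · linear_combination h4 - m * hs + hm
    · rw [h5, k1, ← hm]; ring
    · rw [h6, k2, ← hm]; ring
  · right; right
    refine ⟨m, u - m * u', v - m * v', m0, by linarith, by linarith, ?_, ?_, ?_⟩
    · linear_combination h4 - m * hs + hm
    · rw [h5, k1, ← hm]; ring
    · rw [h6, k2, ← hm]; ring

end Pool.Agent.Lib.MP_32fe36_lc
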