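import Pool.Agent.Lib.MP_32fe36_lc.Basic

/-!
A trapezoid with triangular notches cut into its left side is the interior of a simple polygon.
-/

namespace Pool.Agent.Lib.MP_32fe36_lc

open Set

theorem fin_succ_val {n : ℕ} (w : ℕ → Pt) (hw : w (n + 3) = w 0) (i : Fin (n + 3)) :
    w ((i + 1 : Fin (n + 3)) : ℕ) = w (i + 1) := by
  rw [Fin.val_add_one]
  split_ifs with h
  · rw [h, Fin.val_last, hw]
  · rfl

theorem simple_of_potential {n : ℕ} (w : ℕ → Pt) (hw : w (n + 3) = w 0) (Φ : Pt → ℝ)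
    (h : ℕ → ℝ) (mono : ∀ i < n + 3, h i < h (i + 1))
    (hΦ : ∀ i < n + 3, ∀ t : ℝ, 0 ≤ t → t < 1 →
      Φ (w i + t • (w (i + 1) - w i)) = h i + t * (h (i + 1) - h i)) :
    IsSimplePolygon (fun i : Fin (n + 3) => w i) := by
  have mono' : ∀ j ≤ n + 3, ∀ i ≤ j, h i ≤ h j := by
    intro j hj
    induction j with
    | zero => intro i hi; rw [Nat.le_zero.1 hi]
    | succ j ih =>
      intro i hi
      rcases hi.eq_or_lt with rfl | hi
      · exact le_rfl
      · exact (ih (by omega) i (by omega)).trans (mono j (by omega)).le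
  have lt : ∀ i j : ℕ, i < j → j < n + 3 → ∀ s t : ℝ, s < 1 → 0 ≤ t →
      h i + s * (h (i + 1) - h i) < h j + t * (h (j + 1) - h j) := by
    intro i j hij hj s t hs ht
    have h1 := mono i (by omega)
    have h2 := mono j hj
    have h3 := mono' j hj.le (i + 1) hij
    nlinarith
  intro i j s t s0 s1 t0 t1 e
  dsimp only at e
  rw [fin_succ_val w hw, fin_succ_val w hw] at e
  have e' := congrArg Φ e
  rw [hΦ i i.2 s s0 s1, hΦ j j.2 t t0 t1] at e'
  have hij : i = j := by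
    rcases lt_trichotomy (i : ℕ) j with h' | h' | h'
    · exact absurd e' (lt i j h' j.2 s t s1 t0).ne
    · exact Fin.ext h'
    · exact absurd e' (lt j i h' i.2 t s t1 s0).ne'
  subst hij
  refine ⟨rfl, ?_⟩
  have h1 := mono i i.2
  have : (s - t) * (h (i + 1) - h i) = 0 := by linarith
  have := (mul_eq_zero.1 this).resolve_right (by linarith)
  linarith

theorem mem_boundary_iff {n : ℕ} (w : ℕ → Pt) (hw : w (n + 3) = w 0) (x : Pt) :
    x ∈ polygonBoundary (fun i : Fin (n + 3) => w i) ↔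
      ∃ i < n + 3, x ∈ segment ℝ (w i) (w (i + 1)) := by
  unfold polygonBoundary
  simp only [mem_iUnion, fin_succ_val w hw]
  exact ⟨fun ⟨i, hi⟩ => ⟨i, i.2, hi⟩, fun ⟨i, hi, h⟩ => ⟨⟨i, hi⟩, h⟩⟩

/-- Data of the notched trapezoid. -/
structure Comb where
  N : ℕ
  s : ℕ → ℝ
  α : ℕ → ℝ
  β : ℕ → ℝ
  q : ℕ → Pt
  X : ℝ
  A : ℝ
  H : ℝ
  hX : 1 ≤ X
  hA : 0 < A
  hH : 0 < H
  hα : ∀ j < N, -A < α j
  hβ : ∀ j < N, β j < A
  hsep : ∀ i j, i < j → j < N → 2 * A < X * (s j - s i)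
  hs1 : ∀ j < N, s j + A < H
  hs2 : ∀ j < N, -H < s j - A
  hq1 : ∀ j < N, X + 1 < (q j).1
  hq2 : ∀ j < N, (q j).1 < X + 2
  hq3 : ∀ j < N, α j < (q j).2 - s j * (q j).1
  hq4 : ∀ j < N, (q j).2 - s j * (q j).1 < β j

namespace Comb

variable (c : Comb)

/-- Nonnegative above the lower side of notch `j`. -/
def lowf (j : ℕ) (p : Pt) : ℝ := (c.q j).1 * (p.2 - c.α j) - ((c.q j).2 - c.α j) * p.1

/-- Nonnegative below the upper side of notch `j`. -/
def upf (j : ℕ) (p : Pt) : ℝ := ((c.q j).2 - c.β j) * p.1 - (c.q j).1 * (p.2 - c.β j)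

/-- The closed wedge of notch `j`. -/
def W (j : ℕ) : Set Pt := {p | 0 ≤ c.lowf j p ∧ 0 ≤ c.upf j p}

/-- The obstacle. -/
def U : Set Pt := {p | c.X < p.1 ∧ p.1 < c.X + 3 ∧ -(c.H * p.1) < p.2 ∧ p.2 < c.H * p.1 ∧
  ∀ j < c.N, p ∉ c.W j}

theorem low_add_up (j : ℕ) (p : Pt) :
    c.lowf j p + c.upf j p = (c.β j - c.α j) * ((c.q j).1 - p.1) := by
  unfold lowf upf; ring

theorem αβ {j : ℕ} (hj : j < c.N) : c.α j < c.β j := (c.hq3 j hj).trans (c.hq4 j hj)

theorem q_pos {j : ℕ} (hj : j < c.N) : 0 < (c.q j).1 := by linarith [c.hq1 j hj, c.hX]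

theorem W_le {j : ℕ} (hj : j < c.N) {p : Pt} (hp : p ∈ c.W j) : p.1 ≤ (c.q j).1 := by
  have h := c.low_add_up j p
  have h1 := c.αβ hj
  have : 0 ≤ (c.β j - c.α j) * ((c.q j).1 - p.1) := by rw [← h]; linarith [hp.1, hp.2]
  have := nonneg_of_mul_nonneg_right this (by linarith)
  linarith

theorem W_band {j : ℕ} (hj : j < c.N) {p : Pt} (hp : p ∈ c.W j) (h0 : 0 ≤ p.1) :
    c.α j ≤ p.2 - c.s j * p.1 ∧ p.2 - c.s j * p.1 ≤ c.β j := by
  obtain ⟨h1, h2⟩ := hp
  unfold lowf at h1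
  unfold upf at h2
  have hq := c.q_pos hj
  have h3 := c.hq3 j hj
  have h4 := c.hq4 j hj
  constructor
  · have : 0 ≤ (c.q j).1 * (p.2 - c.s j * p.1 - c.α j) := by nlinarith
    have := nonneg_of_mul_nonneg_right this hq
    linarith
  · have : 0 ≤ (c.q j).1 * (c.β j - (p.2 - c.s j * p.1)) := by nlinarith
    have := nonneg_of_mul_nonneg_right this hq
    linarith

/-- The band around notch `j`. -/
def B (j : ℕ) : Set Pt := {p | -c.A ≤ p.2 - c.s j * p.1 ∧ p.2 - c.s j * p.1 ≤ c.A}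

theorem W_B {j : ℕ} (hj : j < c.N) {p : Pt} (hp : p ∈ c.W j) (h0 : 0 ≤ p.1) : p ∈ c.B j := by
  obtain ⟨h1, h2⟩ := c.W_band hj hp h0
  exact ⟨by linarith [c.hα j hj], by linarith [c.hβ j hj]⟩

theorem B_unique {i j : ℕ} (hi : i < c.N) (hj : j < c.N) {p : Pt} (hp : c.X ≤ p.1)
    (h1 : p ∈ c.B i) (h2 : p ∈ c.B j) : i = j := by
  have key : ∀ i j, i < j → j < c.N → p ∈ c.B i → p ∈ c.B j → False := by
    intro i j hij hj h1 h2
    have h3 := c.hsep i j hij hj
    have h4 : 0 < c.s j - c.s i := by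
      by_contra h
      have : c.X * (c.s j - c.s i) ≤ 0 :=
        mul_nonpos_of_nonneg_of_nonpos (by linarith [c.hX]) (by linarith)
      linarith [c.hA]
    have : c.X * (c.s j - c.s i) ≤ p.1 * (c.s j - c.s i) := by gcongr
    linarith [h1.2, h2.1]
  rcases lt_trichotomy i j with h | h | h
  · exact (key i j h hj h1 h2).elim
  · exact h
  · exact (key j i h hi h2 h1).elim

theorem B_in {j : ℕ} (hj : j < c.N) {p : Pt} (hp : c.X ≤ p.1) (h : p ∈ c.B j) :
    -(c.H * p.1) < p.2 ∧ p.2 < c.H * p.1 := by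
  have h1 := c.hs1 j hj
  have h2 := c.hs2 j hj
  have h3 := c.hX
  have h4 := c.hA
  obtain ⟨h5, h6⟩ := h
  constructor <;> nlinarith

theorem convex_W (j : ℕ) : Convex ℝ (c.W j) := by
  rintro x ⟨h1, h2⟩ y ⟨h3, h4⟩ a b ha hb hab
  have hb' : b = 1 - a := by linarith
  have e1 : c.lowf j (a • x + b • y) = a * c.lowf j x + b * c.lowf j y := by
    simp only [lowf, Prod.fst_add, Prod.snd_add, Prod.smul_fst, Prod.smul_snd, smul_eq_mul, hb']
    ring
  have e2 : c.upf j (a • x + b • y) = a * c.upf j x + b * c.upf j y := by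
    simp only [upf, Prod.fst_add, Prod.snd_add, Prod.smul_fst, Prod.smul_snd, smul_eq_mul, hb']
    ring
  exact ⟨by rw [e1]; positivity, by rw [e2]; positivity⟩

theorem q_mem_W (j : ℕ) : c.q j ∈ c.W j := by
  constructor
  · unfold lowf; linarith
  · unfold upf; linarith

theorem cont_lowf (j : ℕ) : Continuous (c.lowf j) := by unfold lowf; fun_prop

theorem cont_upf (j : ℕ) : Continuous (c.upf j) := by unfold upf; fun_prop

theorem isClosed_W (j : ℕ) : IsClosed (c.W j) :=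
  (isClosed_le continuous_const (c.cont_lowf j)).inter (isClosed_le continuous_const (c.cont_upf j))

theorem isOpen_U : IsOpen c.U := by
  have : c.U = {p : Pt | c.X < p.1} ∩ ({p : Pt | p.1 < c.X + 3} ∩ ({p : Pt | -(c.H * p.1) < p.2} ∩
      ({p : Pt | p.2 < c.H * p.1} ∩ ⋂ j ∈ Finset.range c.N, (c.W j)ᶜ))) := by
    ext p; simp [U]
  rw [this]
  refine (isOpen_lt (by fun_prop) (by fun_prop)).inter
    ((isOpen_lt (by fun_prop) (by fun_prop)).inter ((isOpen_lt (by fun_prop) (by fun_prop)).inter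
    ((isOpen_lt (by fun_prop) (by fun_prop)).inter ?_)))
  exact isOpen_biInter_finset fun j _ => (c.isClosed_W j).isOpen_compl

theorem bounded_U : Bornology.IsBounded c.U := by
  refine ((Metric.isBounded_Icc c.X (c.X + 3)).prod
    (Metric.isBounded_Icc (-(c.H * (c.X + 3))) (c.H * (c.X + 3)))).subset ?_
  rintro p ⟨h1, h2, h3, h4, -⟩
  have := c.hH
  exact ⟨⟨h1.le, h2.le⟩, by nlinarith, by nlinarith⟩

/-- The convex right part of the obstacle. -/
def R : Set Pt := {p | c.X + 2 < p.1 ∧ p.1 < c.X + 3 ∧ -(c.H * p.1) < p.2 ∧ p.2 < c.H * p.1}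

theorem convex_R : Convex ℝ c.R := by
  rintro x ⟨h1, h2, h3, h4⟩ y ⟨g1, g2, g3, g4⟩ a b ha hb hab
  have key : ∀ u v : ℝ, 0 < u → 0 < v → 0 < a * u + b * v := by
    intro u v hu hv
    rcases ha.eq_or_lt with rfl | ha'
    · have : b = 1 := by linarith
      simpa [this] using hv
    · positivity
  have hb' : b = 1 - a := by linarith
  simp only [R, mem_ofPred_eq, Prod.fst_add, Prod.snd_add, Prod.smul_fst, Prod.smul_snd,
    smul_eq_mul]
  have k1 := key _ _ (sub_pos.2 h1) (sub_pos.2 g1)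
  have k2 := key _ _ (sub_pos.2 h2) (sub_pos.2 g2)
  have k3 := key _ _ (sub_pos.2 h3) (sub_pos.2 g3)
  have k4 := key _ _ (sub_pos.2 h4) (sub_pos.2 g4)
  subst hb'
  refine ⟨by linarith, by linarith, by linarith, by linarith⟩

theorem R_subset : c.R ⊆ c.U := by
  rintro p ⟨h1, h2, h3, h4⟩
  refine ⟨by linarith, h2, h3, h4, fun j hj hp => ?_⟩
  linarith [c.W_le hj hp, c.hq2 j hj]

/-- A base point of the obstacle. -/
noncomputable def o : Pt := (c.X + 5 / 2, 0)

theorem o_mem_R : c.o ∈ c.R := by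
  have := c.hH
  have := c.hX
  refine ⟨by simp [o]; norm_num, by simp [o]; norm_num, ?_, ?_⟩ <;> simp only [o] <;> nlinarith

theorem preconnected_U : IsPreconnected c.U := by
  refine isPreconnected_of_forall c.o fun p hp => ?_
  by_cases hR : p ∈ c.R
  · exact ⟨c.R, c.R_subset, c.o_mem_R, hR, c.convex_R.isPreconnected⟩
  obtain ⟨h1, h2, h3, h4, h5⟩ := hp
  have hx : p.1 ≤ c.X + 2 := by
    by_contra h
    exact hR ⟨by linarith, h2, h3, h4⟩
  have hX := c.hX
  have key : ∃ σ : ℝ, ∀ τ : ℝ, 0 ≤ τ → -(c.H * (p.1 + τ)) < p.2 + τ * σ ∧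
      p.2 + τ * σ < c.H * (p.1 + τ) ∧ ∀ j < c.N, (p.1 + τ, p.2 + τ * σ) ∉ c.W j := by
    by_cases hB : ∃ j < c.N, p ∈ c.B j
    · obtain ⟨j, hj, hB⟩ := hB
      refine ⟨c.s j, fun τ hτ => ?_⟩
      have hB' : (p.1 + τ, p.2 + τ * c.s j) ∈ c.B j := by
        obtain ⟨b1, b2⟩ := hB
        constructor <;> dsimp only <;> linarith
      have := c.B_in hj (p := (p.1 + τ, p.2 + τ * c.s j)) (by dsimp only; linarith) hB'
      refine ⟨this.1, this.2, fun i hi hW => ?_⟩
      have hij := c.B_unique hi hj (p := (p.1 + τ, p.2 + τ * c.s j)) (by dsimp only; linarith)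
        (c.W_B hi hW (by dsimp only; linarith)) hB'
      subst hij
      refine h5 i hi ?_
      obtain ⟨w1, w2⟩ := hW
      have h3 := c.hq3 i hi
      have h4 := c.hq4 i hi
      unfold lowf at w1
      unfold upf at w2
      dsimp only at w1 w2
      constructor
      · unfold lowf; nlinarith
      · unfold upf; nlinarith
    · refine ⟨p.2 / p.1, fun τ hτ => ?_⟩
      have hp1 : 0 < p.1 := by linarith
      have e1 : p.1 + τ = (1 + τ / p.1) * p.1 := by field_simp
      have e2 : p.2 + τ * (p.2 / p.1) = (1 + τ / p.1) * p.2 := by field_simp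
      have hr : 1 ≤ 1 + τ / p.1 := by have : 0 ≤ τ / p.1 := by positivity
                                      linarith
      rw [e1, e2]
      generalize 1 + τ / p.1 = r at hr
      refine ⟨by nlinarith, by nlinarith, fun i hi hW => hB ⟨i, hi, ?_⟩⟩
      obtain ⟨b1, b2⟩ := c.W_B hi hW (by dsimp only; positivity)
      dsimp only at b1 b2
      have hA := c.hA
      constructor
      · by_contra h
        rw [not_le] at h
        nlinarith
      · by_contra h
        rw [not_le] at h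
        nlinarith
  obtain ⟨σ, hσ⟩ := key
  let e : Pt := (c.X + 5 / 2, p.2 + (c.X + 5 / 2 - p.1) * σ)
  have he : e ∈ c.R := by
    obtain ⟨a1, a2, -⟩ := hσ (c.X + 5 / 2 - p.1) (by linarith)
    refine ⟨by simp only [e]; linarith, by simp only [e]; linarith, ?_, ?_⟩
    · simp only [e]; convert a1 using 3; ring
    · simp only [e]; convert a2 using 2; ring
  refine ⟨segment ℝ p e ∪ c.R, union_subset ?_ c.R_subset, Or.inr c.o_mem_R,
    Or.inl (left_mem_segment ℝ p e), ?_⟩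
  · intro y hy
    obtain ⟨t, t0, t1, y1, y2⟩ := mem_seg.1 hy
    simp only [e] at y1 y2
    have hd : 0 ≤ c.X + 5 / 2 - p.1 := by linarith
    obtain ⟨a1, a2, a3⟩ := hσ (t * (c.X + 5 / 2 - p.1)) (by positivity)
    have y2' : y.2 = p.2 + t * (c.X + 5 / 2 - p.1) * σ := by rw [y2]; ring
    rw [← y1, ← y2'] at a1 a2 a3
    exact ⟨by nlinarith, by nlinarith, a1, a2, a3⟩
  · exact (convex_segment p e).isPreconnected.union e (right_mem_segment ℝ p e) he
      c.convex_R.isPreconnected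

/-- A segment from the apex of a notch to a point outside its wedge meets the obstacle. -/
theorem blocked {j : ℕ} (hj : j < c.N) {z : Pt} (hz : z ∉ c.W j) :
    ¬ Disjoint (segment ℝ (c.q j) z) c.U := by
  let O : Set Pt := {p | c.X < p.1} ∩ ({p | p.1 < c.X + 3} ∩
    ({p | -c.A < p.2 - c.s j * p.1} ∩ {p | p.2 - c.s j * p.1 < c.A}))
  have hO : IsOpen O := (isOpen_lt (by fun_prop) (by fun_prop)).inter
    ((isOpen_lt (by fun_prop) (by fun_prop)).inter ((isOpen_lt (by fun_prop) (by fun_prop)).inter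
      (isOpen_lt (by fun_prop) (by fun_prop))))
  have hq : c.q j ∈ O := ⟨by have := c.hq1 j hj; simp only [mem_ofPred_eq]; linarith,
    by have := c.hq2 j hj; simp only [mem_ofPred_eq]; linarith,
    (c.hα j hj).trans (c.hq3 j hj), (c.hq4 j hj).trans (c.hβ j hj)⟩
  let g : ℝ → Pt := fun t => ((c.q j).1 + t * (z.1 - (c.q j).1), (c.q j).2 + t * (z.2 - (c.q j).2))
  have hg : Continuous g := by unfold g; fun_prop
  have h0 : (0 : ℝ) ∈ g ⁻¹' O := by simpa [g] using hq
  obtain ⟨e, he, hball⟩ := Metric.isOpen_iff.1 (hO.preimage hg) 0 h0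
  set t := min (e / 2) 1 with ht
  have t0 : 0 < t := lt_min (by linarith) one_pos
  have t1 : t ≤ 1 := min_le_right _ _
  have t2 : t ≤ e / 2 := min_le_left _ _
  have hgt : g t ∈ O := hball (by
    rw [Metric.mem_ball, Real.dist_eq, sub_zero, abs_of_pos t0]; linarith)
  obtain ⟨o1, o2, o3, o4⟩ := hgt
  have hB : g t ∈ c.B j := ⟨le_of_lt o3, le_of_lt o4⟩
  have hin := c.B_in hj (le_of_lt o1) hB
  rw [Set.not_disjoint_iff]
  refine ⟨g t, mem_seg.2 ⟨t, t0.le, t1, rfl, rfl⟩, o1, o2, hin.1, hin.2, fun i hi hW => ?_⟩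
  have hX := c.hX
  have o1' : c.X < (g t).1 := o1
  have hij := c.B_unique hi hj o1'.le (c.W_B hi hW (by linarith)) hB
  subst hij
  have e1 : c.lowf i (g t) = t * c.lowf i z := by simp only [lowf, g]; ring
  have e2 : c.upf i (g t) = t * c.upf i z := by simp only [upf, g]; ring
  obtain ⟨w1, w2⟩ := hW
  rw [e1] at w1
  rw [e2] at w2
  exact hz ⟨nonneg_of_mul_nonneg_right w1 t0, nonneg_of_mul_nonneg_right w2 t0⟩

end Comb

end Pool.Agent.Lib.MP_32fe36_lc
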