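import Pool.Agent.Lib.MP_32fe36_lc.Polygon

/-!
Split graphs whose neighbourhoods are cut out by strips have single-obstacle representations.
-/

namespace Pool.Agent.Lib.MP_32fe36_lc

open Set Filter

theorem dense_cr {a b : Pt} (h : a ≠ b) : Dense {x : Pt | cr a b x ≠ 0} := by
  rw [dense_iff_inter_open]
  rintro O hO ⟨x, hx⟩
  by_cases h0 : cr a b x = 0
  swap
  · exact ⟨x, hx, h0⟩
  let g : ℝ → Pt := fun t => (x.1 - t * (b.2 - a.2), x.2 + t * (b.1 - a.1))
  have hg : Continuous g := by unfold g; fun_prop
  have h1 : (0 : ℝ) ∈ g ⁻¹' O := by simpa [g] using hx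
  obtain ⟨e, he, hball⟩ := Metric.isOpen_iff.1 (hO.preimage hg) 0 h1
  refine ⟨g (e / 2), hball (by
    rw [Metric.mem_ball, Real.dist_eq, sub_zero, abs_of_pos (by linarith)]; linarith), ?_⟩
  have e1 : cr a b (g (e / 2)) = cr a b x + e / 2 * ((b.1 - a.1) ^ 2 + (b.2 - a.2) ^ 2) := by
    simp only [cr, g]; ring
  have e2 : 0 < (b.1 - a.1) ^ 2 + (b.2 - a.2) ^ 2 := by
    by_contra h'
    exact h (Prod.ext (by nlinarith) (by nlinarith))
  simp only [mem_ofPred_eq]
  rw [e1, h0, zero_add]
  positivity

theorem exists_gp {V : Type} [Finite V] (F : Set V) (p0 : V → Pt) (O : V → Set Pt)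
    (hO : ∀ v ∉ F, IsOpen (O v) ∧ (O v).Nonempty) (hinj : ∀ a ∈ F, ∀ b ∈ F, a ≠ b → p0 a ≠ p0 b)
    (hgp : ∀ a ∈ F, ∀ b ∈ F, ∀ c ∈ F, a ≠ b → a ≠ c → b ≠ c → cr (p0 a) (p0 b) (p0 c) ≠ 0) :
    ∃ p : V → Pt, (∀ v ∈ F, p v = p0 v) ∧ (∀ v ∉ F, p v ∈ O v) ∧ Function.Injective p ∧
      ∀ a b c, a ≠ b → a ≠ c → b ≠ c → cr (p a) (p b) (p c) ≠ 0 := by
  classical
  have key : ∀ T : Finset V, ∃ p : V → Pt, (∀ v ∈ F, p v = p0 v) ∧ (∀ v ∈ T, v ∉ F → p v ∈ O v) ∧
      (∀ a b, a ∈ F ∨ a ∈ T → b ∈ F ∨ b ∈ T → a ≠ b → p a ≠ p b) ∧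
      ∀ a b c, a ∈ F ∨ a ∈ T → b ∈ F ∨ b ∈ T → c ∈ F ∨ c ∈ T → a ≠ b → a ≠ c → b ≠ c →
        cr (p a) (p b) (p c) ≠ 0 := by
    intro T
    induction T using Finset.induction_on with
    | empty =>
      exact ⟨p0, fun _ _ => rfl, by simp, fun a b ha hb => hinj a (by simpa using ha) b
        (by simpa using hb), fun a b c ha hb hc => hgp a (by simpa using ha) b (by simpa using hb)
          c (by simpa using hc)⟩
    | insert v T hv ih =>
      obtain ⟨p, h1, h2, h3, h4⟩ := ih
      by_cases hF : v ∈ F
      · have : ∀ a, a ∈ F ∨ a ∈ insert v T → a ∈ F ∨ a ∈ T := by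
          intro a ha
          rcases ha with ha | ha
          · exact Or.inl ha
          · rcases Finset.mem_insert.1 ha with rfl | ha
            · exact Or.inl hF
            · exact Or.inr ha
        refine ⟨p, h1, fun a ha ha' => h2 a ((this a (Or.inr ha)).resolve_left ha') ha',
          fun a b ha hb => h3 a b (this a ha) (this b hb),
          fun a b c ha hb hc => h4 a b c (this a ha) (this b hb) (this c hc)⟩
      · have hd : Dense (⋂ ab : V × V, {x : Pt | x ≠ p ab.1 ∧
            (p ab.1 ≠ p ab.2 → cr (p ab.1) (p ab.2) x ≠ 0)}) := by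
          refine dense_iInter_of_isOpen (fun ab => ?_) (fun ab => ?_)
          · by_cases h : p ab.1 = p ab.2
            · simp only [h, ne_eq, not_true_eq_false, IsEmpty.forall_iff, and_true]
              exact isOpen_ne
            · simp only [ne_eq, h, not_false_eq_true, forall_const]
              exact isOpen_ne.inter (isOpen_ne_fun (by unfold cr; fun_prop) continuous_const)
          · by_cases h : p ab.1 = p ab.2
            · simp only [h, ne_eq, not_true_eq_false, IsEmpty.forall_iff, and_true]
              exact dense_compl_singleton _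
            · simp only [ne_eq, h, not_false_eq_true, forall_const]
              exact (dense_compl_singleton _).inter_of_isOpen_left (dense_cr h) isOpen_ne
        obtain ⟨x, hxO, hx⟩ := hd.inter_open_nonempty _ (hO v hF).1 (hO v hF).2
        simp only [mem_iInter, mem_ofPred_eq, Prod.forall] at hx
        have hmem : ∀ a, a ∈ F ∨ a ∈ insert v T → a ≠ v → a ∈ F ∨ a ∈ T := by
          intro a ha hav
          simpa [hav] using ha
        have hup : ∀ a, a ≠ v → Function.update p v x a = p a := fun a ha =>
          Function.update_of_ne ha _ _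
        have hv' : Function.update p v x v = x := Function.update_self _ _ _
        refine ⟨Function.update p v x, ?_, ?_, ?_, ?_⟩
        · intro a ha
          rw [hup a (by rintro rfl; exact hF ha), h1 a ha]
        · intro a ha ha'
          by_cases hav : a = v
          · rw [hav, hv']; exact hxO
          · rw [hup a hav]; exact h2 a ((hmem a (Or.inr ha) hav).resolve_left ha') ha'
        · intro a b ha hb hab
          by_cases hav : a = v
          · subst hav
            rw [hv', hup b hab.symm]; exact (hx b b).1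
          by_cases hbv : b = v
          · subst hbv
            rw [hv', hup a hav]; exact (hx a a).1.symm
          · rw [hup a hav, hup b hbv]; exact h3 a b (hmem a ha hav) (hmem b hb hbv) hab
        · intro a b c ha hb hc hab hac hbc
          by_cases hav : a = v
          · subst hav
            rw [hv', hup b hab.symm, hup c hac.symm, ← cr_rot]
            exact (hx b c).2 (h3 b c (hmem b hb hab.symm) (hmem c hc hac.symm) hbc)
          by_cases hbv : b = v
          · subst hbv
            rw [hv', hup a hav, hup c hbc.symm, cr_rot]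
            exact (hx c a).2 (h3 c a (hmem c hc hbc.symm) (hmem a ha hav) hac.symm)
          by_cases hcv : c = v
          · subst hcv
            rw [hv', hup a hav, hup b hbv]
            exact (hx a b).2 (h3 a b (hmem a ha hav) (hmem b hb hbv) hab)
          · rw [hup a hav, hup b hbv, hup c hcv]
            exact h4 a b c (hmem a ha hav) (hmem b hb hbv) (hmem c hc hcv) hab hac hbc
  have := Fintype.ofFinite V
  obtain ⟨p, h1, h2, h3, h4⟩ := key Finset.univ
  refine ⟨p, h1, fun v hv => h2 v (by simp) hv, fun a b h => ?_,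
    fun a b c => h4 a b c (by simp) (by simp) (by simp)⟩
  by_contra hab
  exact h3 a b (by simp) (by simp) hab h

theorem exists_inj_choice {V : Type} [Finite V] (I : V → Set ℝ) (hI : ∀ v, (I v).Infinite) :
    ∃ f : V → ℝ, Function.Injective f ∧ ∀ v, f v ∈ I v := by
  classical
  have key : ∀ T : Finset V, ∃ f : V → ℝ, (∀ v ∈ T, f v ∈ I v) ∧ InjOn f T := by
    intro T
    induction T using Finset.induction_on with
    | empty => exact ⟨fun _ => 0, by simp, by simp⟩
    | insert v T hv ih =>
      obtain ⟨f, h1, h2⟩ := ih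
      obtain ⟨x, hx, hx'⟩ := (hI v).exists_notMem_finset (T.image f)
      have hup : ∀ a ∈ T, Function.update f v x a = f a := fun a ha =>
        Function.update_of_ne (by rintro rfl; exact hv ha) _ _
      refine ⟨Function.update f v x, ?_, ?_⟩
      · intro a ha
        rcases Finset.mem_insert.1 ha with rfl | ha
        · simpa using hx
        · rw [hup a ha]; exact h1 a ha
      · intro a ha b hb hab
        rcases Finset.mem_insert.1 ha with ha' | ha' <;>
          rcases Finset.mem_insert.1 hb with hb' | hb'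
        · rw [ha', hb']
        · rw [ha', hup b hb', Function.update_self] at hab
          exact absurd (Finset.mem_image.2 ⟨b, hb', hab.symm⟩) hx'
        · rw [hb', hup a ha', Function.update_self] at hab
          exact absurd (Finset.mem_image.2 ⟨a, ha', hab⟩) hx'
        · rw [hup a ha', hup b hb'] at hab
          exact h2 ha' hb' hab
  have := Fintype.ofFinite V
  obtain ⟨f, h1, h2⟩ := key Finset.univ
  exact ⟨f, fun a b h => h2 (by simp) (by simp) h, fun v => h1 v (by simp)⟩

theorem exists_bound {V : Type} [Finite V] (f : V → ℝ) : ∃ M, 0 < M ∧ ∀ v, |f v| < M := by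
  obtain ⟨M, hM⟩ := (Set.finite_range fun v => |f v|).bddAbove
  exact ⟨max M 0 + 1, by positivity, fun v => by
    linarith [hM (mem_range_self v), le_max_left M 0]⟩

theorem ev_large (c r : ℝ) : ∀ᶠ X : ℝ in atTop, 0 < r → c < X * r := by
  by_cases h : 0 < r
  · filter_upwards [eventually_gt_atTop (c / r)] with X hX _
    rwa [div_lt_iff₀ h] at hX
  · exact Eventually.of_forall fun _ h' => absurd h' h

/-- The strip condition for the neighbourhood of `b` among the vertices in `K`. -/
def Strip {V : Type} (G : SimpleGraph V) (K : Set V) (p0 : V → Pt) (b : V) (s α β : ℝ) : Prop :=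
  ∀ k ∈ K, (G.Adj b k → α < (p0 k).2 - s * (p0 k).1 ∧ (p0 k).2 - s * (p0 k).1 < β) ∧
    (¬ G.Adj b k → (p0 k).2 - s * (p0 k).1 < α ∨ β < (p0 k).2 - s * (p0 k).1)

theorem strip_infinite {V : Type} [Finite V] {G : SimpleGraph V} {K : Set V} {p0 : V → Pt} {b : V}
    {s α β : ℝ} (h : Strip G K p0 b s α β) : {s' | Strip G K p0 b s' α β}.Infinite := by
  have hO : IsOpen {s' | Strip G K p0 b s' α β} := by
    unfold Strip
    simp only [ofPred_forall]
    have o1 : ∀ a x y : ℝ, IsOpen {s : ℝ | a < y - s * x} := fun a x y =>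
      isOpen_lt (by fun_prop) (by fun_prop)
    have o2 : ∀ a x y : ℝ, IsOpen {s : ℝ | y - s * x < a} := fun a x y =>
      isOpen_lt (by fun_prop) (by fun_prop)
    refine isOpen_iInter_of_finite fun k => isOpen_iInter_of_finite fun _ => ?_
    by_cases h : G.Adj b k
    · simp only [h, forall_const, not_true_eq_false, IsEmpty.forall_iff, and_true]
      exact (o1 _ _ _).inter (o2 _ _ _)
    · simp only [h, IsEmpty.forall_iff, not_false_eq_true, forall_const, true_and]
      exact (o2 _ _ _).union (o1 _ _ _)
  exact infinite_of_mem_nhds s (hO.mem_nhds h)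

theorem drawing_disjoint {V : Type} {G : SimpleGraph V} {C : Set Pt} {p : V → Pt}
    (h : IsVisibilityRep G C p) {x : Pt} (hx : x ∈ C) : x ∉ drawing G p := by
  rintro (⟨a, rfl⟩ | ⟨a, b, hab, hs⟩)
  · exact h.2.2.1 a hx
  · exact Set.disjoint_left.1 ((h.2.2.2 a b hab.ne).1 hab) hs hx

theorem bounded_tri (a b c : Pt) : Bornology.IsBounded (Tri a b c) := by
  have : Bornology.IsBounded (convexHull ℝ ({a, b, c} : Set Pt)) :=
    isBounded_convexHull.2 (Set.toFinite _).isBounded
  exact this.subset (tri_subset (convex_convexHull ℝ _) (subset_convexHull ℝ _ (by simp))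
    (subset_convexHull ℝ _ (by simp)) (subset_convexHull ℝ _ (by simp)))

end Pool.Agent.Lib.MP_32fe36_lc
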