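import Mathlib

/-!
Single-obstacle representations of graphs in the plane `ℝ × ℝ`.
-/

namespace Pool.Agent.Lib.MP_32fe36_lc

open Set

/-- The closed polygonal curve with vertices `v 0, …, v (n + 2)` in cyclic order has no
self-intersection: its natural parametrisation is injective. -/
def IsSimplePolygon {n : ℕ} (v : Fin (n + 3) → ℝ × ℝ) : Prop :=
  ∀ (i j : Fin (n + 3)) (s t : ℝ), 0 ≤ s → s < 1 → 0 ≤ t → t < 1 →
    v i + s • (v (i + 1) - v i) = v j + t • (v (j + 1) - v j) → i = j ∧ s = t

/-- The union of the sides of the polygon. -/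
def polygonBoundary {n : ℕ} (v : Fin (n + 3) → ℝ × ℝ) : Set (ℝ × ℝ) :=
  ⋃ i, segment ℝ (v i) (v (i + 1))

/-- An obstacle is the interior of a simple polygon: the bounded connected component of the
complement of the polygonal curve. -/
def IsObstacle (C : Set (ℝ × ℝ)) : Prop :=
  ∃ (n : ℕ) (v : Fin (n + 3) → ℝ × ℝ) (x : ℝ × ℝ), IsSimplePolygon v ∧ x ∉ polygonBoundary v ∧
    C = connectedComponentIn (polygonBoundary v)ᶜ x ∧ Bornology.IsBounded C

/-- The points `p v` are distinct, in general position, outside `C`, and `G` is their visibility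
graph with respect to `C`. -/
def IsVisibilityRep {V : Type} (G : SimpleGraph V) (C : Set (ℝ × ℝ)) (p : V → ℝ × ℝ) : Prop :=
  Function.Injective p ∧
    (∀ a b c, a ≠ b → a ≠ c → b ≠ c → ¬ Collinear ℝ {p a, p b, p c}) ∧
    (∀ a, p a ∉ C) ∧
    ∀ a b, a ≠ b → (G.Adj a b ↔ Disjoint (segment ℝ (p a) (p b)) C)

/-- The point set of the straight-line drawing of `G` on the points `p v`. -/
def drawing {V : Type} (G : SimpleGraph V) (p : V → ℝ × ℝ) : Set (ℝ × ℝ) :=
  range p ∪ {x | ∃ a b, G.Adj a b ∧ x ∈ segment ℝ (p a) (p b)}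

/-- The unbounded component of the complement of `D`. -/
def unboundedFace (D : Set (ℝ × ℝ)) : Set (ℝ × ℝ) :=
  {x | x ∉ D ∧ ¬ Bornology.IsBounded (connectedComponentIn Dᶜ x)}

/-- `G` has an outside-obstacle representation. -/
def HasOutsideRep {V : Type} (G : SimpleGraph V) : Prop :=
  ∃ C p, IsObstacle C ∧ IsVisibilityRep G C p ∧ C ⊆ unboundedFace (drawing G p)

/-- `G` has an inside-obstacle representation. -/
def HasInsideRep {V : Type} (G : SimpleGraph V) : Prop :=
  ∃ C p, IsObstacle C ∧ IsVisibilityRep G C p ∧ C ⊆ (unboundedFace (drawing G p))ᶜ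

/-- The graph given by a list of vertices and a list of edges. -/
def listGraph {α : Type} (I : List α × List (α × α)) : SimpleGraph {a // a ∈ I.1} :=
  SimpleGraph.fromRel fun a b => (a.1, b.1) ∈ I.2

end Pool.Agent.Lib.MP_32fe36_lc
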