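import Pool.Agent.Lib.MP_32fe36_lc.Defs

/-!
Representations with several obstacles, and split graphs.
-/

namespace Pool.Agent.Lib.MP_32fe36_lc

/-- `G` is the visibility graph of points among at most `k` pairwise disjoint obstacles, that
is, the obstacle number of `G` is at most `k`. -/
def HasObsRep {V : Type} (G : SimpleGraph V) (k : ℕ) : Prop :=
  ∃ (S : Finset (Set (ℝ × ℝ))) (p : V → ℝ × ℝ), S.card ≤ k ∧ (∀ C ∈ S, IsObstacle C) ∧
    (∀ C ∈ S, ∀ D ∈ S, C ≠ D → Disjoint C D) ∧ IsVisibilityRep G (⋃ C ∈ S, C) p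

/-- The vertex set splits into a clique and an independent set. -/
def IsSplit {V : Type} (G : SimpleGraph V) : Prop :=
  ∃ K : Set V, G.IsClique K ∧ G.IsIndepSet Kᶜ

end Pool.Agent.Lib.MP_32fe36_lc
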