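import Pool.Agent.Lib.MP_32fe36_lc.Complete

/-!
The geometric realisation theorem.
-/

namespace Pool.Agent.Lib.MP_32fe36_lc

open Set Filter

/-- The four kinds of vertices. -/
inductive Cls where
  | clq | ind | top | bot
  deriving DecidableEq

theorem exists_comb {V : Type} [Finite V] (G : SimpleGraph V) (K B : Set V) (p0 : V → Pt)
    (hs : ∀ b ∈ B, ∃ s α β, α < β ∧ Strip G K p0 b s α β) :
    ∃ (N : ℕ) (s α β : ℕ → ℝ) (X A H : ℝ) (ix : V → ℕ) (bj : ∀ j < N, V),
      (∀ b ∈ B, ∃ h : ix b < N, bj (ix b) h = b) ∧ (∀ j h, bj j h ∈ B ∧ ix (bj j h) = j) ∧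
      1 ≤ X ∧ 0 < A ∧ 0 < H ∧ (∀ j < N, -A < α j ∧ α j < β j ∧ β j < A) ∧
      (∀ i j, i < j → j < N → 2 * A < X * (s j - s i)) ∧
      (∀ j < N, s j + A < H ∧ -H < s j - A) ∧ (∀ k, |(p0 k).1| + 1 ≤ X) ∧
      (∀ b ∈ B, Strip G K p0 b (s (ix b)) (α (ix b)) (β (ix b))) ∧
      ∀ j < N, ∀ k, ∀ γ, γ = α j ∨ γ = β j → (0 < (p0 k).2 - s j * (p0 k).1 - γ →
        2 * A * |(p0 k).1| < X * ((p0 k).2 - s j * (p0 k).1 - γ)) ∧
        (0 < γ - ((p0 k).2 - s j * (p0 k).1) →
          2 * A * |(p0 k).1| < X * (γ - ((p0 k).2 - s j * (p0 k).1))) := by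
  classical
  choose s0 α0 β0 hαβ hst using hs
  obtain ⟨f, hf, hf'⟩ := exists_inj_choice (V := B)
    (fun b => {s' | Strip G K p0 b s' (α0 b b.2) (β0 b b.2)}) (fun b => strip_infinite (hst b b.2))
  have := Fintype.ofFinite B
  let _ : LinearOrder B := LinearOrder.lift' f hf
  let N := Fintype.card B
  let e : Fin N ≃o B := monoEquivOfFin B rfl
  let s : ℕ → ℝ := fun j => if h : j < N then f (e ⟨j, h⟩) else 0
  let α : ℕ → ℝ := fun j => if h : j < N then α0 (e ⟨j, h⟩) (e ⟨j, h⟩).2 else 0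
  let β : ℕ → ℝ := fun j => if h : j < N then β0 (e ⟨j, h⟩) (e ⟨j, h⟩).2 else 0
  let ix : V → ℕ := fun v => if h : v ∈ B then (e.symm ⟨v, h⟩ : ℕ) else 0
  obtain ⟨A1, hA1, hA1'⟩ := exists_bound (fun j : Fin N => α j)
  obtain ⟨A2, hA2, hA2'⟩ := exists_bound (fun j : Fin N => β j)
  obtain ⟨H1, hH1, hH1'⟩ := exists_bound (fun j : Fin N => s j)
  have hmono : ∀ i j, i < j → j < N → 0 < s j - s i := by
    intro i j hij hj
    have hi : i < N := hij.trans hj
    simp only [s, dif_pos hi, dif_pos hj, sub_pos]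
    exact e.strictMono (a := ⟨i, hi⟩) (b := ⟨j, hj⟩) hij
  have hev : ∀ᶠ X : ℝ in atTop, 1 ≤ X ∧
      (∀ i j : Fin N, 0 < s j - s i → 2 * (A1 + A2) < X * (s j - s i)) ∧
      (∀ k, |(p0 k).1| + 1 ≤ X) ∧
      ∀ (j : Fin N) (k : V) (u : Bool), (0 < (p0 k).2 - s j * (p0 k).1 - cond u (α j) (β j) →
        2 * (A1 + A2) * |(p0 k).1| < X * ((p0 k).2 - s j * (p0 k).1 - cond u (α j) (β j))) ∧
        (0 < cond u (α j) (β j) - ((p0 k).2 - s j * (p0 k).1) →
          2 * (A1 + A2) * |(p0 k).1| < X * (cond u (α j) (β j) - ((p0 k).2 - s j * (p0 k).1))) := by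
    refine (eventually_ge_atTop 1).and (Eventually.and ?_ (Eventually.and ?_ ?_))
    · exact eventually_all.2 fun i => eventually_all.2 fun j => ev_large _ _
    · exact eventually_all.2 fun k => eventually_ge_atTop _
    · exact eventually_all.2 fun j => eventually_all.2 fun k => eventually_all.2 fun u =>
        (ev_large _ _).and (ev_large _ _)
  obtain ⟨X, x1, x2, x3, x4⟩ := hev.exists
  have hix : ∀ b (hb : b ∈ B), ∃ h : ix b < N, e ⟨ix b, h⟩ = ⟨b, hb⟩ := by
    intro b hb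
    have : ix b = (e.symm ⟨b, hb⟩ : ℕ) := dif_pos hb
    refine ⟨this ▸ (e.symm ⟨b, hb⟩).2, ?_⟩
    exact (congrArg e (Fin.ext this)).trans (e.apply_symm_apply ⟨b, hb⟩)
  refine ⟨N, s, α, β, X, A1 + A2, H1 + (A1 + A2), ix, fun j h => e ⟨j, h⟩, ?_, ?_, x1,
    by positivity, by positivity, ?_, ?_, ?_, x3, ?_, ?_⟩
  · intro b hb
    obtain ⟨h, h'⟩ := hix b hb
    exact ⟨h, by simp only [h']⟩
  · intro j h
    refine ⟨(e ⟨j, h⟩).2, ?_⟩
    simp only [ix, dif_pos (e ⟨j, h⟩).2, Subtype.coe_eta, OrderIso.symm_apply_apply]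
  · intro j hj
    have h1 := abs_lt.1 (hA1' ⟨j, hj⟩)
    have h2 := abs_lt.1 (hA2' ⟨j, hj⟩)
    dsimp only at h1 h2
    refine ⟨by linarith [h1.1], ?_, by linarith [h2.2]⟩
    simp only [α, β, dif_pos hj]
    exact hαβ _ _
  · intro i j hij hj
    exact x2 ⟨i, hij.trans hj⟩ ⟨j, hj⟩ (hmono i j hij hj)
  · intro j hj
    have h1 := abs_lt.1 (hH1' ⟨j, hj⟩)
    dsimp only at h1
    constructor <;> linarith [h1.1, h1.2]
  · intro b hb
    obtain ⟨h, h'⟩ := hix b hb
    simp only [s, α, β, dif_pos h, h']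
    exact hf' ⟨b, hb⟩
  · rintro j hj k γ (rfl | rfl)
    · exact x4 ⟨j, hj⟩ k true
    · exact x4 ⟨j, hj⟩ k false

theorem sign_keep {X A q1 r d x : ℝ} (hq : X < q1) (hr : 0 < r) (hd : |d| ≤ 2 * A)
    (h : 2 * A * |x| < X * r) : 0 < q1 * r - d * x := by
  have h1 : d * x ≤ |d| * |x| := by rw [← abs_mul]; exact le_abs_self _
  have h2 : |d| * |x| ≤ 2 * A * |x| := by gcongr
  have h3 : X * r < q1 * r := by gcongr
  linarith

theorem far_seg {X H M : ℝ} {k w z : Pt} (hX : 1 ≤ X) (hH : 0 < H) (hk1 : |k.1| + 1 ≤ X)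
    (hk2 : |k.2| < M) (hw1 : X + 4 < w.1) (hw1' : w.1 < X + 5)
    (hw2 : M + (2 * X + 5) * (M + H * (X + 3)) < w.2) (hz : z ∈ segment ℝ k w) (hzx : X < z.1) :
    H * (X + 3) ≤ z.2 := by
  obtain ⟨t, t0, t1, e1, e2⟩ := mem_seg.1 hz
  have a1 := neg_abs_le k.1
  have a2 := le_abs_self k.1
  have a3 := neg_abs_le k.2
  have a4 := le_abs_self k.2
  have hM : 0 < M := (abs_nonneg _).trans_lt hk2
  have h1 : 1 ≤ t * (2 * X + 5) := by nlinarith
  have h2 : 0 < M + H * (X + 3) := by positivity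
  have h3 : t * ((2 * X + 5) * (M + H * (X + 3))) ≤ t * (w.2 - k.2) := by
    apply mul_le_mul_of_nonneg_left _ t0
    linarith
  nlinarith

theorem geo {V : Type} [Finite V] (G : SimpleGraph V) (cls : V → Cls) (p0 : V → Pt)
    (hK : ∀ u v, cls u ≠ .ind → cls v ≠ .ind → u ≠ v → G.Adj u v)
    (hB : ∀ u v, cls u = .ind → cls v ≠ .clq → ¬ G.Adj u v)
    (hinj : ∀ a, cls a = .clq → ∀ b, cls b = .clq → a ≠ b → p0 a ≠ p0 b)
    (hgp : ∀ a, cls a = .clq → ∀ b, cls b = .clq → ∀ c, cls c = .clq → a ≠ b → a ≠ c → b ≠ c →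
      cr (p0 a) (p0 b) (p0 c) ≠ 0)
    (hs : ∀ b, cls b = .ind → ∃ s α β, α < β ∧ Strip G {k | cls k = .clq} p0 b s α β) :
    ((∀ v, cls v = .clq ∨ cls v = .ind) → HasOutsideRep G) ∧
      ((∃ k, cls k = .clq) → (∃ k, cls k = .top) → (∃ k, cls k = .bot) → HasInsideRep G) := by
  classical
  obtain ⟨N, s, α, β, X, A, H, ix, bj, hix, hbj, hX, hA, hH, hαβ, hsep, hsH, hkX, hst, hbig⟩ :=
    exists_comb G {k | cls k = .clq} {k | cls k = .ind} p0 hs
  obtain ⟨M, hM, hM'⟩ := exists_bound (fun k => (p0 k).2)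
  set Y := M + (2 * X + 5) * (M + H * (X + 3)) with hY
  let O : V → Set Pt := fun v => match cls v with
    | .clq => univ
    | .ind => {z | X + 1 < z.1} ∩ ({z | z.1 < X + 2} ∩
        ({z | α (ix v) < z.2 - s (ix v) * z.1} ∩ {z | z.2 - s (ix v) * z.1 < β (ix v)}))
    | .top => {z | X + 4 < z.1} ∩ ({z | z.1 < X + 5} ∩ {z | Y < z.2})
    | .bot => {z | X + 4 < z.1} ∩ ({z | z.1 < X + 5} ∩ {z | z.2 < -Y})
  obtain ⟨p, hp0, hpO, hpinj, hpgp⟩ := exists_gp {k | cls k = .clq} p0 O (by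
    intro v _
    simp only [O]
    rcases h : cls v with _ | _ | _ | _
    · exact ⟨isOpen_univ, univ_nonempty⟩
    · refine ⟨(isOpen_lt (by fun_prop) (by fun_prop)).inter
        ((isOpen_lt (by fun_prop) (by fun_prop)).inter ((isOpen_lt (by fun_prop) (by fun_prop)).inter
        (isOpen_lt (by fun_prop) (by fun_prop)))),
        ⟨(X + 3 / 2, s (ix v) * (X + 3 / 2) + (α (ix v) + β (ix v)) / 2), ?_⟩⟩
      obtain ⟨hlt, -⟩ := hix v h
      have := (hαβ _ hlt).2.1
      refine ⟨?_, ?_, ?_, ?_⟩ <;> simp only [mem_ofPred_eq] <;> linarith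
    · refine ⟨(isOpen_lt (by fun_prop) (by fun_prop)).inter
        ((isOpen_lt (by fun_prop) (by fun_prop)).inter (isOpen_lt (by fun_prop) (by fun_prop))),
        ⟨(X + 9 / 2, Y + 1), ?_⟩⟩
      refine ⟨?_, ?_, ?_⟩ <;> simp only [mem_ofPred_eq] <;> linarith
    · refine ⟨(isOpen_lt (by fun_prop) (by fun_prop)).inter
        ((isOpen_lt (by fun_prop) (by fun_prop)).inter (isOpen_lt (by fun_prop) (by fun_prop))),
        ⟨(X + 9 / 2, -Y - 1), ?_⟩⟩
      refine ⟨?_, ?_, ?_⟩ <;> simp only [mem_ofPred_eq] <;> linarith) hinj hgp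
  have pK : ∀ v, cls v = .clq → p v = p0 v := hp0
  have pB : ∀ v, cls v = .ind → X + 1 < (p v).1 ∧ (p v).1 < X + 2 ∧
      α (ix v) < (p v).2 - s (ix v) * (p v).1 ∧ (p v).2 - s (ix v) * (p v).1 < β (ix v) := by
    intro v h
    have := hpO v (by simp [h])
    simp only [O, h] at this
    exact this
  have pT : ∀ v, cls v = .top → X + 4 < (p v).1 ∧ (p v).1 < X + 5 ∧ Y < (p v).2 := by
    intro v h
    have := hpO v (by simp [h])
    simp only [O, h] at this
    exact this
  have pD : ∀ v, cls v = .bot → X + 4 < (p v).1 ∧ (p v).1 < X + 5 ∧ (p v).2 < -Y := by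
    intro v h
    have := hpO v (by simp [h])
    simp only [O, h] at this
    exact this
  have pq : ∀ j (h : j < N), X + 1 < (p (bj j h)).1 ∧ (p (bj j h)).1 < X + 2 ∧
      α j < (p (bj j h)).2 - s j * (p (bj j h)).1 ∧ (p (bj j h)).2 - s j * (p (bj j h)).1 < β j := by
    intro j h
    have := pB _ (hbj j h).1
    rwa [(hbj j h).2] at this
  let c : Comb :=
    { N := N, s := s, α := α, β := β, q := fun j => if h : j < N then p (bj j h) else 0
      X := X, A := A, H := H, hX := hX, hA := hA, hH := hH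
      hα := fun j hj => (hαβ j hj).1
      hβ := fun j hj => (hαβ j hj).2.2
      hsep := hsep
      hs1 := fun j hj => (hsH j hj).1
      hs2 := fun j hj => (hsH j hj).2
      hq1 := fun j hj => by simp only [dif_pos hj]; exact (pq j hj).1
      hq2 := fun j hj => by simp only [dif_pos hj]; exact (pq j hj).2.1
      hq3 := fun j hj => by simp only [dif_pos hj]; exact (pq j hj).2.2.1
      hq4 := fun j hj => by simp only [dif_pos hj]; exact (pq j hj).2.2.2 }
  have cq : ∀ b, cls b = .ind → ix b < c.N ∧ c.q (ix b) = p b := by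
    intro b hb
    obtain ⟨h, h'⟩ := hix b hb
    exact ⟨h, by simp only [c, dif_pos h, h']⟩
  have kX : ∀ k, cls k = .clq → (p k).1 < X := by
    intro k hk
    rw [pK k hk]
    linarith [hkX k, le_abs_self (p0 k).1]
  have kW : ∀ b k, cls b = .ind → cls k = .clq → (G.Adj b k ↔ p k ∈ c.W (ix b)) := by
    intro b k hb hk
    obtain ⟨hj, hq⟩ := cq b hb
    obtain ⟨b1, b2, b3, b4⟩ := pB b hb
    obtain ⟨a1, a2, a3⟩ := hαβ _ hj
    have el : c.lowf (ix b) (p k) = (p b).1 * ((p0 k).2 - s (ix b) * (p0 k).1 - α (ix b)) -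
        ((p b).2 - s (ix b) * (p b).1 - α (ix b)) * (p0 k).1 := by
      unfold Comb.lowf; rw [hq, pK k hk]; simp only [c]; ring
    have eu : c.upf (ix b) (p k) = (p b).1 * (β (ix b) - ((p0 k).2 - s (ix b) * (p0 k).1)) -
        (β (ix b) - ((p b).2 - s (ix b) * (p b).1)) * (p0 k).1 := by
      unfold Comb.upf; rw [hq, pK k hk]; simp only [c]; ring
    have d1 : |(p b).2 - s (ix b) * (p b).1 - α (ix b)| ≤ 2 * A := by
      rw [abs_le]; constructor <;> linarith
    have d2 : |β (ix b) - ((p b).2 - s (ix b) * (p b).1)| ≤ 2 * A := by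
      rw [abs_le]; constructor <;> linarith
    have hl := hbig _ hj k _ (Or.inl rfl)
    have hu := hbig _ hj k _ (Or.inr rfl)
    obtain ⟨s1, s2⟩ := hst b hb k hk
    constructor
    · intro h
      obtain ⟨h1, h2⟩ := s1 h
      exact ⟨by rw [el]; exact (sign_keep (by linarith) (by linarith) d1 (hl.1 (by linarith))).le,
        by rw [eu]; exact (sign_keep (by linarith) (by linarith) d2 (hu.2 (by linarith))).le⟩
    · rintro ⟨w1, w2⟩
      by_contra h
      rcases s2 h with h1 | h1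
      · have := sign_keep (q1 := (p b).1) (d := -((p b).2 - s (ix b) * (p b).1 - α (ix b)))
          (by linarith) (by linarith) (by rwa [abs_neg]) (hl.2 (by linarith))
        rw [el] at w1
        linarith
      · have := sign_keep (q1 := (p b).1) (d := -(β (ix b) - ((p b).2 - s (ix b) * (p b).1)))
          (by linarith) (by linarith) (by rwa [abs_neg]) (hu.1 (by linarith))
        rw [eu] at w2
        linarith
  have kT : ∀ k w, cls k = .clq → cls w = .top → ∀ z ∈ segment ℝ (p k) (p w), X < z.1 →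
      H * (X + 3) ≤ z.2 := by
    intro k w hk hw z hz hzx
    obtain ⟨w1, w2, w3⟩ := pT w hw
    rw [pK k hk] at hz
    exact far_seg hX hH (hkX k) (hM' k) w1 w2 w3 hz hzx
  have kD : ∀ k w, cls k = .clq → cls w = .bot → ∀ z ∈ segment ℝ (p k) (p w), X < z.1 →
      z.2 ≤ -(H * (X + 3)) := by
    intro k w hk hw z hz hzx
    obtain ⟨w1, w2, w3⟩ := pD w hw
    rw [pK k hk] at hz
    obtain ⟨t, t0, t1, e1, e2⟩ := mem_seg.1 hz
    have := far_seg (k := ((p0 k).1, -(p0 k).2)) (w := ((p w).1, -(p w).2)) (z := (z.1, -z.2))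
      hX hH (hkX k) (by simpa using hM' k) w1 w2 (by dsimp only; linarith)
      (mem_seg.2 ⟨t, t0, t1, e1, by dsimp only; linarith⟩) hzx
    dsimp only at this
    linarith
  have far : ∀ w, cls w ≠ .clq → cls w ≠ .ind → X + 4 < (p w).1 := by
    intro w h1 h2
    rcases h : cls w with _ | _ | _ | _
    · exact absurd h h1
    · exact absurd h h2
    · exact (pT w h).1
    · exact (pD w h).1
  have D0 : ∀ k w, cls k = .clq → cls w ≠ .ind → Disjoint (segment ℝ (p k) (p w)) c.U := by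
    intro k w hk hw
    rw [Set.disjoint_left]
    rintro z hz ⟨u1, u2, u3, u4, -⟩
    simp only [c] at u1 u2 u3 u4
    rcases h : cls w with _ | _ | _ | _
    · obtain ⟨t, t0, t1, e1, -⟩ := mem_seg.1 hz
      have := kX k hk
      have := kX w h
      nlinarith
    · exact hw h
    · have := kT k w hk h z hz u1
      nlinarith
    · have := kD k w hk h z hz u1
      nlinarith
  have D1 : ∀ u v, cls u ≠ .ind → cls v ≠ .ind → Disjoint (segment ℝ (p u) (p v)) c.U := by
    intro u v hu hv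
    by_cases h1 : cls u = .clq
    · exact D0 u v h1 hv
    by_cases h2 : cls v = .clq
    · rw [segment_symm]; exact D0 v u h2 hu
    rw [Set.disjoint_left]
    rintro z hz ⟨-, u2, -⟩
    simp only [c] at u2
    obtain ⟨t, t0, t1, e1, -⟩ := mem_seg.1 hz
    have := far u h1 hu
    have := far v h2 hv
    nlinarith
  have D2 : ∀ b v, cls b = .ind → b ≠ v →
      (G.Adj b v ↔ Disjoint (segment ℝ (p b) (p v)) c.U) := by
    intro b v hb hbv
    obtain ⟨hj, hq⟩ := cq b hb
    have hiff : G.Adj b v ↔ p v ∈ c.W (ix b) := by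
      by_cases hv : cls v = .clq
      · exact kW b v hb hv
      · refine iff_of_false (hB b v hb hv) fun hW => ?_
        by_cases hv' : cls v = .ind
        · obtain ⟨hj', hq'⟩ := cq v hv'
          have hx : c.X ≤ (p v).1 := by simp only [c]; linarith [(pB v hv').1]
          have h0 : 0 ≤ (p v).1 := by linarith [c.hX]
          have := c.B_unique hj hj' hx (c.W_B hj hW h0) (c.W_B hj' (hq' ▸ c.q_mem_W _) h0)
          rw [this, hq'] at hq
          exact hbv (hpinj hq).symm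
        · have h1 := c.W_le hj hW
          rw [hq] at h1
          linarith [far v hv hv', (pB b hb).2.1]
    rw [hiff]
    constructor
    · intro h
      rw [Set.disjoint_left]
      intro z hz hU
      exact hU.2.2.2.2 _ hj ((c.convex_W _).segment_subset (hq ▸ c.q_mem_W _) h hz)
    · intro h
      by_contra h'
      exact c.blocked hj h' (hq ▸ h)
  have hrep : IsVisibilityRep G c.U p := by
    refine ⟨hpinj, fun a b d h1 h2 h3 => ?_, fun a ha => ?_, fun a b hab => ?_⟩
    · rw [collinear_iff_cr]; exact hpgp a b d h1 h2 h3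
    · by_cases h : cls a = .ind
      · obtain ⟨hj, hq⟩ := cq a h
        exact ha.2.2.2.2 _ hj (hq ▸ c.q_mem_W _)
      · exact Set.disjoint_left.1 (D1 a a h h) (left_mem_segment ℝ _ _) ha
    · by_cases h1 : cls a = .ind
      · exact D2 a b h1 hab
      by_cases h2 : cls b = .ind
      · rw [G.adj_comm, segment_symm]; exact D2 b a h2 hab.symm
      · exact iff_of_true (hK a b h1 h2 hab) (D1 a b h1 h2)
  constructor
  · intro hall
    refine ⟨c.U, p, c.isObstacle, hrep, fun x hx => ⟨drawing_disjoint hrep hx, ?_⟩⟩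
    have hlt : ∀ v, (p v).1 < X + 2 := by
      intro v
      rcases hall v with h | h
      · linarith [kX v h]
      · exact (pB v h).2.1
    let ray : Set Pt := (fun t : ℝ => (t, (0 : ℝ))) '' Ici (X + 5 / 2)
    have hray : IsPreconnected ray := isPreconnected_Ici.image _ (by fun_prop)
    have hT : IsPreconnected (c.U ∪ ray) :=
      c.preconnected_U.union c.o (c.R_subset c.o_mem_R) ⟨X + 5 / 2, mem_Ici.2 le_rfl, rfl⟩ hray
    have hsub : c.U ∪ ray ⊆ (drawing G p)ᶜ := by
      rintro z (hz | ⟨t, ht, rfl⟩)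
      · exact drawing_disjoint hrep hz
      · have ht' : X + 5 / 2 ≤ t := ht
        rintro (⟨a, ha⟩ | ⟨a, b, -, hz⟩)
        · have := hlt a
          rw [ha] at this
          dsimp only at this
          linarith
        · obtain ⟨u, u0, u1, e1, -⟩ := mem_seg.1 hz
          have := hlt a
          have := hlt b
          dsimp only at e1
          nlinarith
    intro hb
    have := (hb.subset ((subset_union_right).trans
      (hT.subset_connectedComponentIn (Or.inl hx) hsub))).image_fst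
    obtain ⟨m, hm⟩ := this.bddAbove
    have h1 := hm (a := max m (X + 5 / 2) + 1) ⟨(_, 0), ⟨_, by
      simp only [mem_Ici]; linarith [le_max_right m (X + 5 / 2)], rfl⟩, rfl⟩
    linarith [le_max_left m (X + 5 / 2)]
  · rintro ⟨k, hk⟩ ⟨t, ht⟩ ⟨d, hd⟩
    have n1 : k ≠ t := by rintro rfl; rw [hk] at ht; cases ht
    have n2 : k ≠ d := by rintro rfl; rw [hk] at hd; cases hd
    have n3 : t ≠ d := by rintro rfl; rw [ht] at hd; cases hd
    have i1 : cls k ≠ .ind := by rw [hk]; simp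
    have i2 : cls t ≠ .ind := by rw [ht]; simp
    have i3 : cls d ≠ .ind := by rw [hd]; simp
    have hcr := hpgp k t d n1 n2 n3
    have mid : ∀ w, X + 4 < (p w).1 → ∃ z ∈ segment ℝ (p k) (p w), z.1 = X + 5 / 2 := by
      intro w hw
      have := kX k hk
      have hd : 0 < (p w).1 - (p k).1 := by linarith
      refine ⟨(X + 5 / 2, _), mem_seg.2 ⟨(X + 5 / 2 - (p k).1) / ((p w).1 - (p k).1),
        div_nonneg (by linarith) hd.le, (div_le_one hd).2 (by linarith), ?_, rfl⟩, rfl⟩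
      field_simp
      ring
    obtain ⟨z1, hz1, e1⟩ := mid t (pT t ht).1
    obtain ⟨z2, hz2, e2⟩ := mid d (pD d hd).1
    have f1 := kT k t hk ht z1 hz1 (by linarith)
    have f2 := kD k d hk hd z2 hz2 (by linarith)
    have hpos : 0 < H * (X + 3) := by positivity
    have ho : c.o ∈ Tri (p k) (p t) (p d) := by
      refine (convex_tri _ _ _).segment_subset
        ((convex_tri _ _ _).segment_subset (left_mem_tri _ _ _) (right_mem_tri _ _ _) hz2)
        ((convex_tri _ _ _).segment_subset (left_mem_tri _ _ _) (mid_mem_tri _ _ _) hz1) ?_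
      have g1 : z1 = (X + 5 / 2, z1.2) := Prod.ext e1 rfl
      have g2 : z2 = (X + 5 / 2, z2.2) := Prod.ext e2 rfl
      rw [g1, g2]
      exact Comb.mem_seg_vert (by linarith) (by linarith) (by linarith)
    have hU := subset_tri c.preconnected_U hcr (D1 k t i1 i2) (D1 t d i2 i3) (D1 d k i3 i1)
      (c.R_subset c.o_mem_R) ho
    refine ⟨c.U, p, c.isObstacle, hrep, fun x hx hx' => hx'.2 ?_⟩
    have hdis : ∀ a b, G.Adj a b →
        Disjoint (segment ℝ (p a) (p b)) (connectedComponentIn (drawing G p)ᶜ x) := by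
      intro a b hab
      rw [Set.disjoint_left]
      intro z hz hz'
      exact connectedComponentIn_subset _ _ hz' (Or.inr ⟨a, b, hab, hz⟩)
    exact (bounded_tri _ _ _).subset (subset_tri isPreconnected_connectedComponentIn hcr
      (hdis _ _ (hK _ _ i1 i2 n1)) (hdis _ _ (hK _ _ i2 i3 n3)) (hdis _ _ (hK _ _ i3 i1 n2.symm))
      (mem_connectedComponentIn hx'.1) (hU hx))

end Pool.Agent.Lib.MP_32fe36_lc
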