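import Pool.Agent.Lib.MP_32fe36_lc.Basic

/-!
Extreme points and hull edges of a point configuration, in terms of orientations.
-/

namespace Pool.Agent.Lib.MP_32fe36_lc

open Set

variable {V : Type}

/-- General position on `K`. -/
def GP (q : V → Pt) (K : Set V) : Prop :=
  ∀ a ∈ K, ∀ b ∈ K, ∀ c ∈ K, a ≠ b → a ≠ c → b ≠ c → cr (q a) (q b) (q c) ≠ 0

/-- `a` lies in no triangle spanned by other points of `K`. -/
def Ext (q : V → Pt) (K : Set V) (a : V) : Prop :=
  ∀ u ∈ K, ∀ v ∈ K, ∀ w ∈ K, u ≠ a → v ≠ a → w ≠ a →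
    ¬ (0 < cr (q a) (q u) (q v) ∧ 0 < cr (q a) (q v) (q w) ∧ 0 < cr (q a) (q w) (q u))

/-- All other points of `K` lie on one side of the line through `u` and `v`. -/
def HE (q : V → Pt) (K : Set V) (u v : V) : Prop :=
  (∀ k ∈ K, k ≠ u → k ≠ v → 0 < cr (q u) (q v) (q k)) ∨
    (∀ k ∈ K, k ≠ u → k ≠ v → cr (q u) (q v) (q k) < 0)

theorem HE.symm {q : V → Pt} {K : Set V} {u v : V} (h : HE q K u v) : HE q K v u := by
  rcases h with h | h
  · right; intro k hk h1 h2; rw [cr_swap12]; linarith [h k hk h2 h1]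
  · left; intro k hk h1 h2; rw [cr_swap12]; linarith [h k hk h2 h1]

theorem HE.deg {q : V → Pt} {K : Set V} {v a b c : V} (ha : a ∈ K) (hb : b ∈ K) (hc : c ∈ K)
    (hav : a ≠ v) (hbv : b ≠ v) (hcv : c ≠ v) (hab : a ≠ b) (hac : a ≠ c) (hbc : b ≠ c)
    (h1 : HE q K v a) (h2 : HE q K v b) (h3 : HE q K v c) : False := by
  have s1 := cr_swap23 (q v) (q a) (q b)
  have s2 := cr_swap23 (q v) (q a) (q c)
  have s3 := cr_swap23 (q v) (q b) (q c)
  rcases h1 with h1 | h1 <;> rcases h2 with h2 | h2 <;> rcases h3 with h3 | h3 <;>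
    linarith [h1 b hb hbv hab.symm, h1 c hc hcv hac.symm, h2 a ha hav hab, h2 c hc hcv hbc.symm,
      h3 a ha hav hac, h3 b hb hbv hbc]

theorem not_HE {q : V → Pt} {K : Set V} (hq : GP q K) {u v : V} (hu : u ∈ K) (hv : v ∈ K)
    (huv : u ≠ v) (h : ¬ HE q K u v) :
    (∃ k ∈ K, k ≠ u ∧ k ≠ v ∧ cr (q u) (q v) (q k) < 0) ∧
      ∃ k ∈ K, k ≠ u ∧ k ≠ v ∧ 0 < cr (q u) (q v) (q k) := by
  unfold HE at h
  push Not at h
  obtain ⟨⟨k, hk, h1, h2, h3⟩, ⟨k', hk', h1', h2', h3'⟩⟩ := h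
  exact ⟨⟨k, hk, h1, h2, h3.lt_of_ne (hq u hu v hv k hk huv h1.symm h2.symm)⟩,
    ⟨k', hk', h1', h2', h3'.lt_of_ne (hq u hu v hv k' hk' huv h1'.symm h2'.symm).symm⟩⟩

theorem cross_trans {d1 d2 u1 u2 v1 v2 : ℝ} (hd : 0 < d1) (hu : 0 < u1) (hv : 0 < v1)
    (h1 : 0 < u1 * d2 - u2 * d1) (h2 : 0 < d1 * v2 - d2 * v1) : 0 < u1 * v2 - u2 * v1 := by
  have : d1 * (u1 * v2 - u2 * v1) = u1 * (d1 * v2 - d2 * v1) + v1 * (u1 * d2 - u2 * d1) := by ring
  have h3 : 0 < d1 * (u1 * v2 - u2 * v1) := by rw [this]; positivity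
  exact (mul_pos_iff_of_pos_left hd).1 h3

theorem vert_aux {q : V → Pt} {K : Set V} (hq : GP q K) {a b c : V} (ha : a ∈ K) (hb : b ∈ K)
    (hc : c ∈ K) (hab : (q a).1 < (q b).1) (hbc : (q b).1 < (q c).1)
    (hout : ∀ k ∈ K, k ≠ a → k ≠ b → k ≠ c → (q k).1 < (q a).1 ∨ (q c).1 < (q k).1)
    (ea : Ext q K a) (eb : Ext q K b) (ec : Ext q K c) (hpos : 0 < cr (q a) (q b) (q c)) :
    HE q K a b ∨ HE q K b c ∨ HE q K a c := by
  by_contra hcon
  simp only [not_or] at hcon
  obtain ⟨n1, n2, n3⟩ := hcon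
  have nab : a ≠ b := by rintro rfl; exact lt_irrefl _ hab
  have nbc : b ≠ c := by rintro rfl; exact lt_irrefl _ hbc
  have nac : a ≠ c := by rintro rfl; exact lt_irrefl _ (hab.trans hbc)
  obtain ⟨p, hp, pa, pb, hp'⟩ := (not_HE hq ha hb nab n1).1
  obtain ⟨s, hs, sb, sc, hs'⟩ := (not_HE hq hb hc nbc n2).1
  obtain ⟨r, hr, ra, rc, hr'⟩ := (not_HE hq ha hc nac n3).2
  have pc : p ≠ c := by rintro rfl; linarith
  have sa : s ≠ a := by rintro rfl; rw [cr_rot] at hs'; linarith
  have rb : r ≠ b := by rintro rfl; rw [cr_swap23] at hr'; linarith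
  have hpl : (q p).1 < (q a).1 := by
    rcases hout p hp pa pb pc with h | h
    · exact h
    · exfalso
      refine eb a ha p hp c hc nab pb nbc.symm ⟨?_, ?_, ?_⟩
      · rw [cr_swap12]; linarith
      · unfold cr at *
        exact cross_trans (d1 := (q b).1 - (q a).1) (d2 := (q b).2 - (q a).2) (by linarith)
          (by linarith) (by linarith) (by linarith) (by linarith)
      · rw [cr_rot]; exact hpos
  have hsr : (q c).1 < (q s).1 := by
    rcases hout s hs sa sb sc with h | h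
    · exfalso
      refine eb a ha s hs c hc nab sb nbc.symm ⟨?_, ?_, ?_⟩
      · unfold cr at *
        have := cross_trans (d1 := (q c).1 - (q b).1) (d2 := (q c).2 - (q b).2)
          (u1 := (q b).1 - (q a).1) (u2 := (q b).2 - (q a).2)
          (v1 := (q b).1 - (q s).1) (v2 := (q b).2 - (q s).2) (by linarith)
          (by linarith) (by linarith) (by linarith) (by linarith)
        linarith
      · rw [cr_swap23]; linarith
      · rw [cr_rot]; exact hpos
    · exact h
  rcases hout r hr ra rb rc with h | h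
  · rcases lt_or_gt_of_ne (hq a ha b hb r hr nab ra.symm rb.symm) with h' | h'
    · refine ea b hb c hc r hr nab.symm nac.symm ra ⟨hpos, hr', ?_⟩
      rw [cr_swap23]; linarith
    · refine ea b hb r hr p hp nab.symm ra pa ⟨h', ?_, ?_⟩
      · unfold cr at *
        have := cross_trans (d1 := (q b).1 - (q a).1) (d2 := (q b).2 - (q a).2)
          (u1 := (q a).1 - (q r).1) (u2 := (q a).2 - (q r).2)
          (v1 := (q a).1 - (q p).1) (v2 := (q a).2 - (q p).2) (by linarith)
          (by linarith) (by linarith) (by linarith) (by linarith)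
        linarith
      · rw [cr_swap23]; linarith
  · rcases lt_or_gt_of_ne (hq c hc b hb r hr nbc.symm rc.symm rb.symm) with h' | h'
    · refine ec b hb s hs r hr nbc sc rc ⟨?_, ?_, ?_⟩
      · rw [cr_swap12]; linarith
      · unfold cr at *
        have := cross_trans (d1 := (q c).1 - (q b).1) (d2 := (q c).2 - (q b).2)
          (u1 := (q s).1 - (q c).1) (u2 := (q s).2 - (q c).2)
          (v1 := (q r).1 - (q c).1) (v2 := (q r).2 - (q c).2) (by linarith)
          (by linarith) (by linarith) (by linarith) (by linarith)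
        linarith
      · rw [cr_swap23]; linarith
    · refine ec a ha b hb r hr nac nbc rc ⟨?_, h', ?_⟩
      · rw [← cr_rot]; exact hpos
      · rw [cr_rot]; exact hr'

theorem vert {q : V → Pt} {K : Set V} (hq : GP q K) {a b c : V} (ha : a ∈ K) (hb : b ∈ K)
    (hc : c ∈ K) (hab : (q a).1 < (q b).1) (hbc : (q b).1 < (q c).1)
    (hout : ∀ k ∈ K, k ≠ a → k ≠ b → k ≠ c → (q k).1 < (q a).1 ∨ (q c).1 < (q k).1)
    (ea : Ext q K a) (eb : Ext q K b) (ec : Ext q K c) :
    HE q K a b ∨ HE q K b c ∨ HE q K a c := by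
  have nab : a ≠ b := by rintro rfl; exact lt_irrefl _ hab
  have nbc : b ≠ c := by rintro rfl; exact lt_irrefl _ hbc
  have nac : a ≠ c := by rintro rfl; exact lt_irrefl _ (hab.trans hbc)
  rcases lt_or_gt_of_ne (hq a ha b hb c hc nab nac nbc) with h | h
  · let q' : V → Pt := fun v => ((q v).1, -(q v).2)
    have e : ∀ u v w, cr (q' u) (q' v) (q' w) = - cr (q u) (q v) (q w) := by
      intro u v w; simp only [q', cr]; ring
    have hE : ∀ x, Ext q K x → Ext q' K x := by
      intro x hx u hu v hv w hw h1 h2 h3 ⟨c1, c2, c3⟩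
      rw [e, ← cr_swap23] at c1 c2 c3
      exact hx u hu w hw v hv h1 h3 h2 ⟨c3, c2, c1⟩
    have hH : ∀ u v, HE q' K u v → HE q K u v := by
      rintro u v (h | h)
      · right; intro k hk h1 h2; have := h k hk h1 h2; rw [e] at this; linarith
      · left; intro k hk h1 h2; have := h k hk h1 h2; rw [e] at this; linarith
    have := vert_aux (q := q') (K := K) (fun u hu v hv w hw h1 h2 h3 => by
      rw [e]; exact neg_ne_zero.2 (hq u hu v hv w hw h1 h2 h3)) ha hb hc hab hbc hout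
      (hE _ ea) (hE _ eb) (hE _ ec) (by rw [e]; linarith)
    exact this.imp (hH _ _) (Or.imp (hH _ _) (hH _ _))
  · exact vert_aux hq ha hb hc hab hbc hout ea eb ec h

/-- If three extreme points form an interval of the left-to-right order then two of them span a
hull edge. -/
theorem triple_HE {q : V → Pt} {K : Set V} (hq : GP q K)
    (hinj : ∀ u ∈ K, ∀ v ∈ K, u ≠ v → (q u).1 ≠ (q v).1) {x y z : V} (hx : x ∈ K) (hy : y ∈ K)
    (hz : z ∈ K) (hxy : x ≠ y) (hxz : x ≠ z) (hyz : y ≠ z)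
    (hint : ∀ k ∈ K, ∀ n1 n2, (n1 = x ∨ n1 = y ∨ n1 = z) → (n2 = x ∨ n2 = y ∨ n2 = z) →
      (q n1).1 ≤ (q k).1 → (q k).1 ≤ (q n2).1 → k = x ∨ k = y ∨ k = z)
    (ex : Ext q K x) (ey : Ext q K y) (ez : Ext q K z) :
    HE q K x y ∨ HE q K y z ∨ HE q K x z := by
  have key : ∀ a b c, (a = x ∨ a = y ∨ a = z) → (c = x ∨ c = y ∨ c = z) →
      (∀ k, (k = x ∨ k = y ∨ k = z) → k = a ∨ k = b ∨ k = c) →
      ∀ k ∈ K, k ≠ a → k ≠ b → k ≠ c → (q k).1 < (q a).1 ∨ (q c).1 < (q k).1 := by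
    intro a b c ha hc hall k hk h1 h2 h3
    by_contra hcon
    simp only [not_or, not_lt] at hcon
    rcases hall k (hint k hk a c ha hc hcon.1 hcon.2) with h | h | h
    · exact h1 h
    · exact h2 h
    · exact h3 h
  rcases lt_or_gt_of_ne (hinj x hx y hy hxy) with h1 | h1 <;>
  rcases lt_or_gt_of_ne (hinj y hy z hz hyz) with h2 | h2 <;>
  rcases lt_or_gt_of_ne (hinj x hx z hz hxz) with h3 | h3
  · exact vert hq hx hy hz h1 h2 (key x y z (by simp) (by simp) (by tauto)) ex ey ez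
  · linarith
  · rcases vert hq hx hz hy h3 h2 (key x z y (by simp) (by simp) (by tauto)) ex ez ey with
      h | h | h
    · exact Or.inr (Or.inr h)
    · exact Or.inr (Or.inl h.symm)
    · exact Or.inl h
  · rcases vert hq hz hx hy h3 h1 (key z x y (by simp) (by simp) (by tauto)) ez ex ey with
      h | h | h
    · exact Or.inr (Or.inr h.symm)
    · exact Or.inl h
    · exact Or.inr (Or.inl h.symm)
  · rcases vert hq hy hx hz h1 h3 (key y x z (by simp) (by simp) (by tauto)) ey ex ez with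
      h | h | h
    · exact Or.inl h.symm
    · exact Or.inr (Or.inr h)
    · exact Or.inr (Or.inl h)
  · rcases vert hq hy hz hx h2 h3 (key y z x (by simp) (by simp) (by tauto)) ey ez ex with
      h | h | h
    · exact Or.inr (Or.inl h)
    · exact Or.inr (Or.inr h.symm)
    · exact Or.inl h.symm
  · linarith
  · rcases vert hq hz hy hx h2 h1 (key z y x (by simp) (by simp) (by tauto)) ez ey ex with
      h | h | h
    · exact Or.inr (Or.inl h.symm)
    · exact Or.inl h.symm
    · exact Or.inr (Or.inr h.symm)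

/-- A leftmost or rightmost point is extreme. -/
theorem ext_of_side {q : V → Pt} {K : Set V} {a : V}
    (h : (∀ k ∈ K, k ≠ a → (q a).1 < (q k).1) ∨ ∀ k ∈ K, k ≠ a → (q k).1 < (q a).1) :
    Ext q K a := by
  intro u hu v hv w hw h1 h2 h3 ⟨c1, c2, c3⟩
  have id : ((q u).1 - (q a).1) * cr (q a) (q v) (q w) + ((q v).1 - (q a).1) * cr (q a) (q w) (q u)
      + ((q w).1 - (q a).1) * cr (q a) (q u) (q v) = 0 := by unfold cr; ring
  rcases h with h | h
  · have := mul_pos (sub_pos.2 (h u hu h1)) c2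
    have := mul_pos (sub_pos.2 (h v hv h2)) c3
    have := mul_pos (sub_pos.2 (h w hw h3)) c1
    linarith
  · have := mul_pos (sub_pos.2 (h u hu h1)) c2
    have := mul_pos (sub_pos.2 (h v hv h2)) c3
    have := mul_pos (sub_pos.2 (h w hw h3)) c1
    linarith

/-- Two configurations with the same orientations on `K`. -/
def SameOr (q p : V → Pt) (K : Set V) : Prop :=
  ∀ u ∈ K, ∀ v ∈ K, ∀ w ∈ K, (0 < cr (q u) (q v) (q w) ↔ 0 < cr (p u) (p v) (p w))

theorem SameOr.symm {q p : V → Pt} {K : Set V} (h : SameOr q p K) : SameOr p q K :=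
  fun u hu v hv w hw => (h u hu v hv w hw).symm

theorem SameOr.ext {q p : V → Pt} {K : Set V} (h : SameOr q p K) {a : V} (ha : a ∈ K)
    (e : Ext q K a) : Ext p K a := by
  intro u hu v hv w hw h1 h2 h3 ⟨c1, c2, c3⟩
  exact e u hu v hv w hw h1 h2 h3
    ⟨(h a ha u hu v hv).2 c1, (h a ha v hv w hw).2 c2, (h a ha w hw u hu).2 c3⟩

theorem SameOr.he {q p : V → Pt} {K : Set V} (h : SameOr q p K) {u v : V} (hu : u ∈ K)
    (hv : v ∈ K) (e : HE q K u v) : HE p K u v := by
  rcases e with e | e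
  · left; intro k hk h1 h2; exact (h u hu v hv k hk).1 (e k hk h1 h2)
  · right; intro k hk h1 h2
    have := (h v hv u hu k hk).1 (by rw [cr_swap12]; linarith [e k hk h1 h2])
    rw [cr_swap12] at this; linarith

theorem SameOr.gp {q p : V → Pt} {K : Set V} (h : SameOr q p K) (e : GP p K) : GP q K := by
  intro a ha b hb c hc h1 h2 h3
  rcases lt_or_gt_of_ne (e a ha b hb c hc h1 h2 h3) with h' | h'
  · have := (h b hb a ha c hc).2 (by rw [cr_swap12]; linarith)
    rw [cr_swap12] at this; linarith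
  · exact ((h a ha b hb c hc).2 h').ne'

end Pool.Agent.Lib.MP_32fe36_lc
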