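import Pool.Agent.Lib.MP_32fe36_lc.Comb

/-!
The notched trapezoid is an obstacle.
-/

namespace Pool.Agent.Lib.MP_32fe36_lc

open Set

namespace Comb

variable (c : Comb)

/-- Height of the lower end of the base of notch `j`; the top left corner for `j = N`. -/
noncomputable def lo (j : ℕ) : ℝ :=
  if j < c.N then c.α j + ((c.q j).2 - c.α j) * (c.X / (c.q j).1) else c.H * c.X

/-- Height of the upper end of the base of notch `j - 1`; the bottom left corner for `j = 0`. -/
noncomputable def hi : ℕ → ℝ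
  | 0 => -(c.H * c.X)
  | j + 1 => c.β j + ((c.q j).2 - c.β j) * (c.X / (c.q j).1)

/-- The vertices of the polygon. -/
noncomputable def w (i : ℕ) : Pt :=
  if i = 3 * c.N + 2 then (c.X + 3, c.H * (c.X + 3))
  else if i = 3 * c.N + 3 then (c.X + 3, -(c.H * (c.X + 3)))
  else if i = 3 * c.N + 4 then (c.X, -(c.H * c.X))
  else if i % 3 = 0 then (c.X, c.hi (i / 3))
  else if i % 3 = 1 then (c.X, c.lo (i / 3))
  else c.q (i / 3)

/-- The values of the potential at the vertices. -/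
noncomputable def ht (i : ℕ) : ℝ :=
  if i = 3 * c.N + 2 then c.H * c.X + 3
  else if i = 3 * c.N + 3 then c.H * c.X + 3 + 2 * (c.H * (c.X + 3))
  else if i = 3 * c.N + 4 then c.H * c.X + 3 + 2 * (c.H * (c.X + 3)) + 3
  else if i % 3 = 0 then c.hi (i / 3)
  else if i % 3 = 1 then c.lo (i / 3)
  else (c.q (i / 3)).2 - c.s (i / 3) * ((c.q (i / 3)).1 - c.X)

theorem w0 {j : ℕ} (hj : j ≤ c.N) : c.w (3 * j) = (c.X, c.hi j) ∧ c.ht (3 * j) = c.hi j := by
  unfold w ht
  rw [if_neg (by omega), if_neg (by omega), if_neg (by omega), if_pos (by omega),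
    if_neg (by omega), if_neg (by omega), if_neg (by omega), if_pos (by omega)]
  simp

theorem w1 {j : ℕ} (hj : j ≤ c.N) :
    c.w (3 * j + 1) = (c.X, c.lo j) ∧ c.ht (3 * j + 1) = c.lo j := by
  have : (3 * j + 1) / 3 = j := by omega
  unfold w ht
  rw [if_neg (by omega), if_neg (by omega), if_neg (by omega), if_neg (by omega), if_pos (by omega),
    if_neg (by omega), if_neg (by omega), if_neg (by omega), if_neg (by omega), if_pos (by omega),
    this]
  simp

theorem w2 {j : ℕ} (hj : j < c.N) : c.w (3 * j + 2) = c.q j ∧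
    c.ht (3 * j + 2) = (c.q j).2 - c.s j * ((c.q j).1 - c.X) := by
  have : (3 * j + 2) / 3 = j := by omega
  unfold w ht
  rw [if_neg (by omega), if_neg (by omega), if_neg (by omega), if_neg (by omega), if_neg (by omega),
    if_neg (by omega), if_neg (by omega), if_neg (by omega), if_neg (by omega), if_neg (by omega),
    this]
  simp

theorem wA2 : c.w (3 * c.N + 2) = (c.X + 3, c.H * (c.X + 3)) ∧
    c.ht (3 * c.N + 2) = c.H * c.X + 3 := by simp [w, ht]

theorem wA3 : c.w (3 * c.N + 3) = (c.X + 3, -(c.H * (c.X + 3))) ∧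
    c.ht (3 * c.N + 3) = c.H * c.X + 3 + 2 * (c.H * (c.X + 3)) := by simp [w, ht]

theorem wA4 : c.w (3 * c.N + 4) = (c.X, -(c.H * c.X)) ∧
    c.ht (3 * c.N + 4) = c.H * c.X + 3 + 2 * (c.H * (c.X + 3)) + 3 := by simp [w, ht]

theorem lo_N : c.lo c.N = c.H * c.X := by simp [lo]

theorem lowf_lo {j : ℕ} (hj : j < c.N) (y : ℝ) :
    c.lowf j (c.X, y) = (c.q j).1 * (y - c.lo j) := by
  have := (c.q_pos hj).ne'
  simp only [lowf, lo, if_pos hj]
  field_simp
  ring

theorem upf_hi {j : ℕ} (hj : j < c.N) (y : ℝ) :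
    c.upf j (c.X, y) = (c.q j).1 * (c.hi (j + 1) - y) := by
  have := (c.q_pos hj).ne'
  simp only [upf, hi]
  field_simp
  ring

theorem lo_mid {j : ℕ} (hj : j < c.N) : c.lo j < (c.q j).2 - c.s j * ((c.q j).1 - c.X) := by
  have h1 := c.lowf_lo hj ((c.q j).2 - c.s j * ((c.q j).1 - c.X))
  have h2 : c.lowf j (c.X, (c.q j).2 - c.s j * ((c.q j).1 - c.X)) =
      ((c.q j).1 - c.X) * ((c.q j).2 - c.s j * (c.q j).1 - c.α j) := by unfold lowf; ring
  have h3 : 0 < ((c.q j).1 - c.X) * ((c.q j).2 - c.s j * (c.q j).1 - c.α j) :=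
    mul_pos (by linarith [c.hq1 j hj]) (by linarith [c.hq3 j hj])
  rw [← h2, h1] at h3
  linarith [(mul_pos_iff_of_pos_left (c.q_pos hj)).1 h3]

theorem mid_hi {j : ℕ} (hj : j < c.N) : (c.q j).2 - c.s j * ((c.q j).1 - c.X) < c.hi (j + 1) := by
  have h1 := c.upf_hi hj ((c.q j).2 - c.s j * ((c.q j).1 - c.X))
  have h2 : c.upf j (c.X, (c.q j).2 - c.s j * ((c.q j).1 - c.X)) =
      ((c.q j).1 - c.X) * (c.β j - ((c.q j).2 - c.s j * (c.q j).1)) := by unfold upf; ring
  have h3 : 0 < ((c.q j).1 - c.X) * (c.β j - ((c.q j).2 - c.s j * (c.q j).1)) :=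
    mul_pos (by linarith [c.hq1 j hj]) (by linarith [c.hq4 j hj])
  rw [← h2, h1] at h3
  linarith [(mul_pos_iff_of_pos_left (c.q_pos hj)).1 h3]

theorem lo_mem_W {j : ℕ} (hj : j < c.N) : (c.X, c.lo j) ∈ c.W j := by
  have := c.lo_mid hj
  have := c.mid_hi hj
  have := c.q_pos hj
  constructor
  · rw [c.lowf_lo hj]; simp
  · rw [c.upf_hi hj]; exact mul_nonneg (by linarith) (by linarith)

theorem hi_mem_W {j : ℕ} (hj : j < c.N) : (c.X, c.hi (j + 1)) ∈ c.W j := by
  have := c.lo_mid hj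
  have := c.mid_hi hj
  have := c.q_pos hj
  constructor
  · rw [c.lowf_lo hj]; exact mul_nonneg (by linarith) (by linarith)
  · rw [c.upf_hi hj]; simp

theorem hi_lo {j : ℕ} (hj : j ≤ c.N) : c.hi j < c.lo j := by
  have hX := c.hX
  have hH := c.hH
  rcases hj.eq_or_lt with rfl | hj
  · rw [lo_N]
    rcases hN : c.N with _ | k
    · simp only [hi]; nlinarith
    · have hk : k < c.N := by omega
      exact (c.B_in hk (p := (c.X, c.hi (k + 1))) le_rfl
        (c.W_B hk (c.hi_mem_W hk) (by dsimp only; linarith))).2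
  · have b := c.W_B hj (c.lo_mem_W hj) (by dsimp only; linarith)
    rcases j with _ | k
    · exact (c.B_in hj (p := (c.X, c.lo 0)) le_rfl b).1
    · have hk : k < c.N := by omega
      have b' := c.W_B hk (c.hi_mem_W hk) (by dsimp only; linarith)
      have := c.hsep k (k + 1) (by omega) hj
      obtain ⟨b1, b2⟩ := b
      obtain ⟨b3, b4⟩ := b'
      dsimp only at b1 b2 b3 b4
      linarith

theorem idx_cases {i : ℕ} (hi : i < 3 * c.N + 1 + 3) :
    (∃ j ≤ c.N, i = 3 * j) ∨ (∃ j < c.N, i = 3 * j + 1) ∨ (∃ j < c.N, i = 3 * j + 2) ∨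
      i = 3 * c.N + 1 ∨ i = 3 * c.N + 2 ∨ i = 3 * c.N + 3 := by
  by_cases h1 : i = 3 * c.N + 1
  · simp [h1]
  by_cases h2 : i = 3 * c.N + 2
  · simp [h2]
  by_cases h3 : i = 3 * c.N + 3
  · simp [h3]
  have : i % 3 = 0 ∨ i % 3 = 1 ∨ i % 3 = 2 := by omega
  rcases this with h | h | h
  · exact Or.inl ⟨i / 3, by omega, by omega⟩
  · exact Or.inr (Or.inl ⟨i / 3, by omega, by omega⟩)
  · exact Or.inr (Or.inr (Or.inl ⟨i / 3, by omega, by omega⟩))

theorem w_end : c.w (3 * c.N + 1 + 3) = c.w 0 := by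
  have := (c.w0 (Nat.zero_le _)).1
  rw [Nat.mul_zero] at this
  rw [this, c.wA4.1]
  rfl

open Classical in
/-- A potential increasing along the polygon. -/
noncomputable def pot (p : Pt) : ℝ :=
  if p.1 = c.X then p.2
  else if h : ∃ j < c.N, p ∈ c.W j then p.2 - c.s h.choose * (p.1 - c.X)
  else if p.2 = c.H * p.1 then c.H * c.X + (p.1 - c.X)
  else if p.1 = c.X + 3 then c.H * c.X + 3 + (c.H * (c.X + 3) - p.2)
  else c.H * c.X + 3 + 2 * (c.H * (c.X + 3)) + (c.X + 3 - p.1)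

theorem pot_W {j : ℕ} (hj : j < c.N) {p : Pt} (hp : p ∈ c.W j) (hx : c.X ≤ p.1) :
    c.pot p = p.2 - c.s j * (p.1 - c.X) := by
  have hX := c.hX
  unfold pot
  split_ifs with h1 h2
  · rw [h1]; ring
  · have := c.B_unique h2.choose_spec.1 hj hx (c.W_B h2.choose_spec.1 h2.choose_spec.2
      (by linarith)) (c.W_B hj hp (by linarith))
    rw [this]
  all_goals exact absurd ⟨j, hj, hp⟩ h2

theorem not_W {p : Pt} (hx : c.X ≤ p.1)
    (h : c.X + 2 ≤ p.1 ∨ c.H * p.1 ≤ p.2 ∨ p.2 ≤ -(c.H * p.1)) : ¬ ∃ j < c.N, p ∈ c.W j := by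
  rintro ⟨j, hj, hp⟩
  have hX := c.hX
  have h1 := c.W_le hj hp
  have h2 := c.hq2 j hj
  have h3 := c.B_in hj hx (c.W_B hj hp (by linarith))
  rcases h with h | h | h <;> linarith [h3.1, h3.2]

theorem simple : IsSimplePolygon (fun i : Fin (3 * c.N + 1 + 3) => c.w i) := by
  have hX := c.hX
  have hH := c.hH
  refine simple_of_potential c.w c.w_end c.pot c.ht ?_ ?_
  · intro i hi
    rcases c.idx_cases hi with ⟨j, hj, rfl⟩ | ⟨j, hj, rfl⟩ | ⟨j, hj, rfl⟩ | rfl | rfl | rfl
    · rw [(c.w0 hj).2, (c.w1 hj).2]; exact c.hi_lo hj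
    · rw [(c.w1 hj.le).2, (c.w2 hj).2]; exact c.lo_mid hj
    · rw [(c.w2 hj).2, show 3 * j + 2 + 1 = 3 * (j + 1) by ring, (c.w0 hj).2]; exact c.mid_hi hj
    · rw [(c.w1 le_rfl).2, c.wA2.2, lo_N]; linarith
    · rw [c.wA2.2, c.wA3.2]; nlinarith
    · rw [c.wA3.2, c.wA4.2]; linarith
  · intro i hi t t0 t1
    rcases c.idx_cases hi with ⟨j, hj, rfl⟩ | ⟨j, hj, rfl⟩ | ⟨j, hj, rfl⟩ | rfl | rfl | rfl
    · rw [(c.w0 hj).2, (c.w1 hj).2, (c.w0 hj).1, (c.w1 hj).1]
      unfold pot
      rw [if_pos (by simp)]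
      simp
    · rw [(c.w1 hj.le).2, (c.w2 hj).2, (c.w1 hj.le).1, (c.w2 hj).1]
      have hq := c.hq1 j hj
      rw [c.pot_W hj ((c.convex_W j).add_smul_sub_mem (c.lo_mem_W hj) (c.q_mem_W j) ⟨t0, t1.le⟩)
        (by simp; nlinarith)]
      simp
      ring
    · rw [(c.w2 hj).2, show 3 * j + 2 + 1 = 3 * (j + 1) by ring, (c.w0 hj).2, (c.w2 hj).1,
        (c.w0 hj).1]
      have hq := c.hq1 j hj
      rw [c.pot_W hj ((c.convex_W j).add_smul_sub_mem (c.q_mem_W j) (c.hi_mem_W hj) ⟨t0, t1.le⟩)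
        (by simp; nlinarith)]
      simp
      ring
    · rw [(c.w1 le_rfl).2, c.wA2.2, (c.w1 le_rfl).1, c.wA2.1, lo_N]
      have e : ((c.X, c.H * c.X) + t • ((c.X + 3, c.H * (c.X + 3)) - (c.X, c.H * c.X)) : Pt) =
        (c.X + 3 * t, c.H * (c.X + 3 * t)) := by ext <;> simp <;> ring
      rw [e]
      unfold pot
      by_cases h : c.X + 3 * t = c.X
      · have : t = 0 := by linarith
        simp [this]
      · rw [if_neg h, dif_neg (c.not_W (by dsimp only; linarith) (Or.inr (Or.inl le_rfl))),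
          if_pos rfl]
        ring
    · rw [c.wA2.2, c.wA3.2, c.wA2.1, c.wA3.1]
      have e : ((c.X + 3, c.H * (c.X + 3)) + t • ((c.X + 3, -(c.H * (c.X + 3))) -
        (c.X + 3, c.H * (c.X + 3))) : Pt) =
        (c.X + 3, c.H * (c.X + 3) - t * (2 * (c.H * (c.X + 3)))) := by
        ext
        · simp
        · simp; ring
      rw [e]
      unfold pot
      rw [if_neg (by dsimp only; linarith),
        dif_neg (c.not_W (by dsimp only; linarith) (Or.inl (by dsimp only; linarith)))]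
      split_ifs with h h'
      · dsimp only at h ⊢; linarith
      · dsimp only; ring
      · exact absurd rfl h'
    · rw [c.wA3.2, c.wA4.2, c.wA3.1, c.wA4.1]
      have e : ((c.X + 3, -(c.H * (c.X + 3))) + t • ((c.X, -(c.H * c.X)) -
        (c.X + 3, -(c.H * (c.X + 3)))) : Pt) =
        (c.X + 3 - 3 * t, -(c.H * (c.X + 3 - 3 * t))) := by ext <;> simp <;> ring
      rw [e]
      unfold pot
      rw [if_neg (by dsimp only; linarith),
        dif_neg (c.not_W (by dsimp only; linarith) (Or.inr (Or.inr le_rfl))),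
        if_neg (by dsimp only; nlinarith)]
      split_ifs with h
      · dsimp only at h ⊢
        have : t = 0 := by linarith
        rw [this]; ring
      · dsimp only; ring

theorem boundary_disjoint {p : Pt}
    (hp : p ∈ polygonBoundary (fun i : Fin (3 * c.N + 1 + 3) => c.w i)) : p ∉ c.U := by
  obtain ⟨i, hi, hp⟩ := (mem_boundary_iff c.w c.w_end p).1 hp
  rintro ⟨h1, h2, h3, h4, h5⟩
  rcases c.idx_cases hi with ⟨j, hj, rfl⟩ | ⟨j, hj, rfl⟩ | ⟨j, hj, rfl⟩ | rfl | rfl | rfl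
  · rw [(c.w0 hj).1, (c.w1 hj).1] at hp
    obtain ⟨t, -, -, e, -⟩ := mem_seg.1 hp
    dsimp only at e
    linarith
  · rw [(c.w1 hj.le).1, (c.w2 hj).1] at hp
    exact h5 j hj ((c.convex_W j).segment_subset (c.lo_mem_W hj) (c.q_mem_W j) hp)
  · rw [show 3 * j + 2 + 1 = 3 * (j + 1) by ring, (c.w2 hj).1, (c.w0 hj).1] at hp
    exact h5 j hj ((c.convex_W j).segment_subset (c.q_mem_W j) (c.hi_mem_W hj) hp)
  · rw [(c.w1 le_rfl).1, c.wA2.1, lo_N] at hp
    obtain ⟨t, -, -, e, e'⟩ := mem_seg.1 hp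
    dsimp only at e e'
    rw [e, e'] at h4
    linarith
  · rw [c.wA2.1, c.wA3.1] at hp
    obtain ⟨t, -, -, e, -⟩ := mem_seg.1 hp
    dsimp only at e
    linarith
  · rw [c.wA3.1, c.wA4.1] at hp
    obtain ⟨t, -, -, e, e'⟩ := mem_seg.1 hp
    dsimp only at e e'
    rw [e, e'] at h3
    linarith

/-- The exterior of the polygon. -/
def Out : Set Pt := {p | p.1 < c.X ∨ c.X + 3 < p.1 ∨ p.2 < -(c.H * p.1) ∨ c.H * p.1 < p.2 ∨
  ∃ j < c.N, 0 < c.lowf j p ∧ 0 < c.upf j p}

theorem isOpen_Out : IsOpen c.Out := by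
  have : c.Out = {p : Pt | p.1 < c.X} ∪ ({p : Pt | c.X + 3 < p.1} ∪
      ({p : Pt | p.2 < -(c.H * p.1)} ∪ ({p : Pt | c.H * p.1 < p.2} ∪
        ⋃ j ∈ Finset.range c.N, {p | 0 < c.lowf j p} ∩ {p | 0 < c.upf j p}))) := by
    ext p
    simp only [Out, mem_ofPred_eq, mem_union, mem_iUnion, Finset.mem_range, mem_inter_iff,
      exists_prop]
  rw [this]
  refine (isOpen_lt (by fun_prop) (by fun_prop)).union
    ((isOpen_lt (by fun_prop) (by fun_prop)).union ((isOpen_lt (by fun_prop) (by fun_prop)).union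
    ((isOpen_lt (by fun_prop) (by fun_prop)).union ?_)))
  exact isOpen_biUnion fun j _ => (isOpen_lt continuous_const (c.cont_lowf j)).inter
    (isOpen_lt continuous_const (c.cont_upf j))

theorem mem_seg_vert {x a b y : ℝ} (h1 : a ≤ y) (h2 : y ≤ b) (h : a < b) :
    ((x, y) : Pt) ∈ segment ℝ (x, a) (x, b) := by
  have : 0 < b - a := by linarith
  refine mem_seg.2 ⟨(y - a) / (b - a), div_nonneg (by linarith) this.le,
    (div_le_one this).2 (by linarith), by simp, ?_⟩
  dsimp only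
  field_simp
  ring

theorem cover {p : Pt} (h1 : p ∉ c.U) (h2 : p ∉ c.Out) :
    p ∈ polygonBoundary (fun i : Fin (3 * c.N + 1 + 3) => c.w i) := by
  rw [mem_boundary_iff c.w c.w_end]
  have hX := c.hX
  have hH := c.hH
  simp only [Out, mem_ofPred_eq, not_or, not_lt, not_exists, not_and] at h2
  obtain ⟨a1, a2, a3, a4, a5⟩ := h2
  obtain ⟨x, y⟩ := p
  dsimp only at a1 a2 a3 a4
  rcases a1.eq_or_lt with rfl | a1
  · have key : ∀ j ≤ c.N, y ≤ c.lo j →
        ∃ i < 3 * c.N + 1 + 3, ((c.X, y) : Pt) ∈ segment ℝ (c.w i) (c.w (i + 1)) := by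
      intro j
      induction j with
      | zero =>
        intro hj hy
        refine ⟨3 * 0, by omega, ?_⟩
        rw [(c.w0 hj).1, (c.w1 hj).1]
        exact mem_seg_vert a3 hy (c.hi_lo hj)
      | succ j ih =>
        intro hj hy
        by_cases h : y ≤ c.lo j
        · exact ih (by omega) h
        · rw [not_le] at h
          have hj' : j < c.N := hj
          have hq := c.q_pos hj'
          have := a5 j hj' (by rw [c.lowf_lo hj']; exact mul_pos hq (by linarith))
          rw [c.upf_hi hj'] at this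
          have : c.hi (j + 1) - y ≤ 0 := by
            by_contra h'
            exact absurd this (not_le.2 (mul_pos hq (by linarith)))
          refine ⟨3 * (j + 1), by omega, ?_⟩
          rw [(c.w0 hj).1, (c.w1 hj).1]
          exact mem_seg_vert (by linarith) hy (c.hi_lo hj)
    exact key c.N le_rfl (by rw [lo_N]; exact a4)
  rcases a2.eq_or_lt with rfl | a2
  · refine ⟨3 * c.N + 2, by omega, ?_⟩
    rw [c.wA2.1, c.wA3.1, segment_symm]
    exact mem_seg_vert a3 a4 (by nlinarith)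
  rcases a3.eq_or_lt with rfl | a3
  · refine ⟨3 * c.N + 3, by omega, ?_⟩
    rw [c.wA3.1, c.wA4.1]
    exact mem_seg.2 ⟨(c.X + 3 - x) / 3, by linarith, by linarith, by dsimp only; ring,
      by dsimp only; ring⟩
  rcases a4.eq_or_lt with rfl | a4
  · refine ⟨3 * c.N + 1, by omega, ?_⟩
    rw [(c.w1 le_rfl).1, c.wA2.1, lo_N]
    exact mem_seg.2 ⟨(x - c.X) / 3, by linarith, by linarith, by dsimp only; ring,
      by dsimp only; ring⟩
  have : ∃ j < c.N, ((x, y) : Pt) ∈ c.W j := by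
    by_contra h
    push Not at h
    exact h1 ⟨a1, a2, a3, a4, h⟩
  obtain ⟨j, hj, hW⟩ := this
  have hle : x ≤ (c.q j).1 := c.W_le hj hW
  have hq := c.q_pos hj
  have hq1 := c.hq1 j hj
  have hd : 0 < (c.q j).1 - c.X := by linarith
  rcases hW.1.eq_or_lt with h | h
  · refine ⟨3 * j + 1, by omega, ?_⟩
    rw [(c.w1 hj.le).1, (c.w2 hj).1]
    refine mem_seg.2 ⟨(x - c.X) / ((c.q j).1 - c.X), div_nonneg (by linarith) hd.le,
      (div_le_one hd).2 (by linarith), by dsimp only; field_simp; ring, ?_⟩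
    simp only [lo, if_pos hj]
    unfold lowf at h
    dsimp only at h
    field_simp
    linear_combination (c.X - (c.q j).1) * h
  · have h' : c.upf j (x, y) = 0 := le_antisymm (a5 j hj h) hW.2
    refine ⟨3 * j + 2, by omega, ?_⟩
    rw [show 3 * j + 2 + 1 = 3 * (j + 1) by ring, (c.w2 hj).1, (c.w0 hj).1, segment_symm]
    refine mem_seg.2 ⟨(x - c.X) / ((c.q j).1 - c.X), div_nonneg (by linarith) hd.le,
      (div_le_one hd).2 (by linarith), by dsimp only; field_simp; ring, ?_⟩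
    simp only [hi]
    unfold upf at h'
    dsimp only at h'
    field_simp
    linear_combination (c.X - (c.q j).1) * h'

theorem isObstacle : IsObstacle c.U := by
  have ho : c.o ∈ c.U := c.R_subset c.o_mem_R
  refine ⟨3 * c.N + 1, fun i => c.w i, c.o, c.simple, fun h => c.boundary_disjoint h ho, ?_,
    c.bounded_U⟩
  apply Subset.antisymm
  · exact c.preconnected_U.subset_connectedComponentIn ho
      (fun p hp h => c.boundary_disjoint h hp)
  · refine isPreconnected_connectedComponentIn.subset_left_of_subset_union c.isOpen_U c.isOpen_Out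
      ?_ ?_ ⟨c.o, mem_connectedComponentIn (fun h => c.boundary_disjoint h ho), ho⟩
    · rw [Set.disjoint_left]
      rintro p ⟨h1, h2, h3, h4, h5⟩ (h | h | h | h | ⟨j, hj, h, h'⟩)
      · linarith
      · linarith
      · linarith
      · linarith
      · exact h5 j hj ⟨h.le, h'.le⟩
    · intro p hp
      have := connectedComponentIn_subset _ _ hp
      by_contra h
      rw [mem_union, not_or] at h
      exact this (c.cover h.1 h.2)

end Comb

end Pool.Agent.Lib.MP_32fe36_lc
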