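import Pool.Agent.Lib.MP_32fe36_lc.Hull

/-!
Consequences of a single connected obstacle for cliques and their outside neighbours.
-/

namespace Pool.Agent.Lib.MP_32fe36_lc

open Set

/-- Points in general position together with a connected obstacle. -/
structure Scene (V : Type) where
  C : Set Pt
  p : V → Pt
  conn : IsPreconnected C
  gp : ∀ a b c, a ≠ b → a ≠ c → b ≠ c → cr (p a) (p b) (p c) ≠ 0
  notin : ∀ a, p a ∉ C

namespace Scene

variable {V : Type} (S : Scene V)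

/-- The two points see each other. -/
def Vis (a b : V) : Prop := Disjoint (segment ℝ (S.p a) (S.p b)) S.C

/-- The convex hull of a set of vertices. -/
def hull (K : Set V) : Set Pt := convexHull ℝ (S.p '' K)

/-- Any two vertices of `K` see each other. -/
def IsClq (K : Set V) : Prop := ∀ a ∈ K, ∀ b ∈ K, S.Vis a b

/-- The obstacle avoids all triangles spanned by `b` and two of its neighbours in `K`. -/
def Good (K : Set V) (b : V) : Prop :=
  ∀ u ∈ K, ∀ v ∈ K, S.Vis b u → S.Vis b v → Disjoint S.C (Tri (S.p b) (S.p u) (S.p v))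

variable {S}

theorem vis_refl (a : V) : S.Vis a a := by
  unfold Vis
  rw [segment_same, Set.disjoint_singleton_left]
  exact S.notin a

theorem Vis.symm {a b : V} (h : S.Vis a b) : S.Vis b a := by
  unfold Vis at *
  rwa [segment_symm]

theorem tri_sub {a b c : V} (hab : S.Vis a b) (hbc : S.Vis b c) (hca : S.Vis c a) {x : Pt}
    (hxC : x ∈ S.C) (hx : x ∈ Tri (S.p a) (S.p b) (S.p c)) :
    cr (S.p a) (S.p b) (S.p c) ≠ 0 ∧ S.C ⊆ Tri (S.p a) (S.p b) (S.p c) := by
  have h1 : a ≠ b := by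
    rintro rfl
    exact Set.disjoint_left.1 hbc (tri_self_subset _ _ hx) hxC
  have h2 : b ≠ c := by
    rintro rfl
    rw [← tri_rot] at hx
    exact Set.disjoint_left.1 hca (tri_self_subset _ _ hx) hxC
  have h3 : a ≠ c := by
    rintro rfl
    rw [← tri_rot, ← tri_rot] at hx
    exact Set.disjoint_left.1 hab (tri_self_subset _ _ hx) hxC
  exact ⟨S.gp a b c h1 h3 h2, subset_tri S.conn (S.gp a b c h1 h3 h2) hab hbc hca hxC hx⟩

theorem mem_hull {K : Set V} {a : V} (ha : a ∈ K) : S.p a ∈ S.hull K :=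
  subset_convexHull ℝ _ (mem_image_of_mem _ ha)

theorem tri_subset_hull {K : Set V} {a b c : V} (ha : a ∈ K) (hb : b ∈ K) (hc : c ∈ K) :
    Tri (S.p a) (S.p b) (S.p c) ⊆ S.hull K :=
  tri_subset (convex_convexHull ℝ _) (mem_hull ha) (mem_hull hb) (mem_hull hc)

theorem hull_tri {K : Set V} (hK : S.IsClq K) {x : Pt} (hxC : x ∈ S.C) (hx : x ∈ S.hull K) :
    ∃ a ∈ K, ∃ b ∈ K, ∃ c ∈ K,
      cr (S.p a) (S.p b) (S.p c) ≠ 0 ∧ S.C ⊆ Tri (S.p a) (S.p b) (S.p c) := by
  obtain ⟨_, ⟨a, ha, rfl⟩, _, ⟨b, hb, rfl⟩, _, ⟨c, hc, rfl⟩, h⟩ := exists_tri_of_mem_convexHull hx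
  exact ⟨a, ha, b, hb, c, hc, tri_sub (hK a ha b hb) (hK b hb c hc) (hK c hc a ha) hxC h⟩

theorem hull_sub {K : Set V} (hK : S.IsClq K) {x : Pt} (hxC : x ∈ S.C) (hx : x ∈ S.hull K) :
    S.C ⊆ S.hull K := by
  obtain ⟨a, ha, b, hb, c, hc, -, h⟩ := hull_tri hK hxC hx
  exact h.trans (tri_subset_hull ha hb hc)

theorem sep_hull {K : Set V} (hfin : K.Finite) {x : Pt} (hx : x ∉ S.hull K) :
    ∃ a c : ℝ, ∀ k ∈ K, 0 < a * ((S.p k).1 - x.1) + c * ((S.p k).2 - x.2) := by
  obtain ⟨f, u, h1, h2⟩ := geometric_hahn_banach_point_closed (convex_convexHull ℝ (S.p '' K))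
    ((hfin.image _).isClosed_convexHull ℝ) hx
  have hf : ∀ y : Pt, f y = f (1, 0) * y.1 + f (0, 1) * y.2 := by
    intro y
    have : y = y.1 • ((1 : ℝ), (0 : ℝ)) + y.2 • ((0 : ℝ), (1 : ℝ)) := by ext <;> simp
    conv_lhs => rw [this]
    rw [map_add, map_smul, map_smul]
    simp [mul_comm]
  refine ⟨f (1, 0), f (0, 1), fun k hk => ?_⟩
  have := h2 _ (mem_hull hk)
  rw [hf] at h1 this
  linarith

theorem exists_blocked {a b : V} (h : ¬ S.Vis a b) :
    ∃ x ∈ S.C, ∃ t : ℝ, 0 < t ∧ t < 1 ∧ x.1 = (S.p a).1 + t * ((S.p b).1 - (S.p a).1) ∧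
      x.2 = (S.p a).2 + t * ((S.p b).2 - (S.p a).2) := by
  unfold Vis at h
  rw [Set.not_disjoint_iff] at h
  obtain ⟨x, hx, hxC⟩ := h
  obtain ⟨t, h0, h1, h2, h3⟩ := mem_seg.1 hx
  refine ⟨x, hxC, t, h0.lt_of_ne ?_, h1.lt_of_ne ?_, h2, h3⟩
  · rintro rfl
    have : x = S.p a := Prod.ext (by simpa using h2) (by simpa using h3)
    exact S.notin a (this ▸ hxC)
  · rintro rfl
    have : x = S.p b := Prod.ext (by simpa using h2) (by simpa using h3)
    exact S.notin b (this ▸ hxC)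

/-- Of two invisible vertices at most one is not good. -/
theorem good_or {K : Set V} (hfin : K.Finite) (hK : S.IsClq K) (hfree : Disjoint S.C (S.hull K))
    {b b' : V} (hbb : ¬ S.Vis b b') : S.Good K b ∨ S.Good K b' := by
  by_contra hcon
  simp only [not_or] at hcon
  obtain ⟨x, hxC, t, t0, t1, hx1, hx2⟩ := exists_blocked hbb
  obtain ⟨a, c, hac⟩ := sep_hull hfin (Set.disjoint_left.1 hfree hxC)
  have key : ∀ d, ¬ S.Good K d → a * ((S.p d).1 - x.1) + c * ((S.p d).2 - x.2) < 0 := by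
    intro d hd
    unfold Good at hd
    push Not at hd
    obtain ⟨u, hu, v, hv, h1, h2, h3⟩ := hd
    obtain ⟨y, hyC, hy⟩ := Set.not_disjoint_iff.1 h3
    obtain ⟨l, m, n, l0, m0, n0, hs, e1, e2⟩ :=
      (tri_sub h1 (hK u hu v hv) h2.symm hyC hy).2 hxC
    have hu' := hac u hu
    have hv' := hac v hv
    have e : l * (a * ((S.p d).1 - x.1) + c * ((S.p d).2 - x.2)) +
        m * (a * ((S.p u).1 - x.1) + c * ((S.p u).2 - x.2)) +
        n * (a * ((S.p v).1 - x.1) + c * ((S.p v).2 - x.2)) = 0 := by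
      linear_combination (-a) * e1 - c * e2 - (a * x.1 + c * x.2) * hs
    by_contra hge
    rw [not_lt] at hge
    have p1 := mul_nonneg l0 hge
    have p2 := mul_nonneg m0 hu'.le
    have p3 := mul_nonneg n0 hv'.le
    have hm : m = 0 := by
      have : m * (a * ((S.p u).1 - x.1) + c * ((S.p u).2 - x.2)) = 0 := by linarith
      exact (mul_eq_zero.1 this).resolve_right hu'.ne'
    have hn : n = 0 := by
      have : n * (a * ((S.p v).1 - x.1) + c * ((S.p v).2 - x.2)) = 0 := by linarith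
      exact (mul_eq_zero.1 this).resolve_right hv'.ne'
    have hl : l = 1 := by linarith
    have : x = S.p d := Prod.ext (by rw [e1, hm, hn, hl]; ring) (by rw [e2, hm, hn, hl]; ring)
    exact S.notin d (this ▸ hxC)
  have k1 := key b hcon.1
  have k2 := key b' hcon.2
  have e : (1 - t) * (a * ((S.p b).1 - x.1) + c * ((S.p b).2 - x.2)) +
      t * (a * ((S.p b').1 - x.1) + c * ((S.p b').2 - x.2)) = 0 := by
    linear_combination (-a) * hx1 - c * hx2
  have := mul_neg_of_pos_of_neg (sub_pos.2 t1) k1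
  have := mul_neg_of_pos_of_neg t0 k2
  linarith

/-- Radial coordinates seen from a point `o` that has all of `K` in an open half-plane. -/
theorem radial {K : Set V} (o : Pt) {a c : ℝ}
    (hac : ∀ k ∈ K, 0 < a * ((S.p k).1 - o.1) + c * ((S.p k).2 - o.2)) :
    ∃ q : V → Pt, SameOr q S.p K ∧
      (∀ u ∈ K, ∀ v ∈ K, ((q u).1 < (q v).1 ↔ 0 < cr o (S.p u) (S.p v))) ∧
      ∀ u ∈ K, ∀ v ∈ K, ∀ k ∈ K, (q u).1 ≤ (q k).1 → (q k).1 ≤ (q v).1 →
        ∃ l m : ℝ, 0 ≤ l ∧ 0 ≤ m ∧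
          (S.p k).1 - o.1 = l * ((S.p u).1 - o.1) + m * ((S.p v).1 - o.1) ∧
          (S.p k).2 - o.2 = l * ((S.p u).2 - o.2) + m * ((S.p v).2 - o.2) := by
  let X : V → ℝ := fun k => a * ((S.p k).1 - o.1) + c * ((S.p k).2 - o.2)
  let Y : V → ℝ := fun k => -c * ((S.p k).1 - o.1) + a * ((S.p k).2 - o.2)
  have hX : ∀ k ∈ K, 0 < X k := hac
  have hN : ∀ k ∈ K, 0 < a ^ 2 + c ^ 2 := by
    intro k hk
    by_contra h
    have ha : a = 0 := by nlinarith
    have hc : c = 0 := by nlinarith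
    have := hac k hk
    simp [ha, hc] at this
  refine ⟨fun k => (Y k / X k, 1 / X k), ?_, ?_, ?_⟩
  · intro u hu v hv w hw
    have e : cr (Y u / X u, 1 / X u) (Y v / X v, 1 / X v) (Y w / X w, 1 / X w) =
        (a ^ 2 + c ^ 2) / (X u * X v * X w) * cr (S.p u) (S.p v) (S.p w) := by
      have := (hX u hu).ne'
      have := (hX v hv).ne'
      have := (hX w hw).ne'
      unfold cr
      field_simp
      simp only [X, Y]
      ring
    rw [e]
    have := hX u hu
    have := hX v hv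
    have := hX w hw
    have := hN u hu
    exact mul_pos_iff_of_pos_left (by positivity)
  · intro u hu v hv
    have hu' := hX u hu
    have hv' := hX v hv
    have e : Y v / X v - Y u / X u = (a ^ 2 + c ^ 2) / (X u * X v) * cr o (S.p u) (S.p v) := by
      unfold cr
      field_simp
      simp only [X, Y]
      ring
    have := hN u hu
    rw [← sub_pos, e]
    exact mul_pos_iff_of_pos_left (by positivity)
  · intro u hu v hv k hk h1 h2
    have hu' := hX u hu
    have hv' := hX v hv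
    have hk' := hX k hk
    have hN' := hN u hu
    dsimp only at h1 h2
    have back : ∀ l m : ℝ, X k = l * X u + m * X v → Y k = l * Y u + m * Y v →
        (S.p k).1 - o.1 = l * ((S.p u).1 - o.1) + m * ((S.p v).1 - o.1) ∧
          (S.p k).2 - o.2 = l * ((S.p u).2 - o.2) + m * ((S.p v).2 - o.2) := by
      intro l m e1 e2
      simp only [X, Y] at e1 e2
      constructor
      · apply mul_left_cancel₀ hN'.ne'
        linear_combination a * e1 - c * e2
      · apply mul_left_cancel₀ hN'.ne'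
        linear_combination c * e1 + a * e2
    rcases (h1.trans h2).eq_or_lt with h | h
    · have hk2 : Y k / X k = Y u / X u := le_antisymm (h ▸ h2) h1
      refine ⟨X k / X u, 0, by positivity, le_rfl, back _ _ (by field_simp; ring) ?_⟩
      field_simp at hk2 ⊢
      linarith
    · set tu := Y u / X u with htu
      set tv := Y v / X v with htv
      set tk := Y k / X k with htk
      have eu : Y u = tu * X u := by rw [htu]; field_simp
      have ev : Y v = tv * X v := by rw [htv]; field_simp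
      have ek : Y k = tk * X k := by rw [htk]; field_simp
      have hd : 0 < tv - tu := sub_pos.2 h
      have h1' : 0 ≤ tk - tu := sub_nonneg.2 h1
      have h2' : 0 ≤ tv - tk := sub_nonneg.2 h2
      refine ⟨X k * (tv - tk) / ((tv - tu) * X u), X k * (tk - tu) / ((tv - tu) * X v),
        by positivity, by positivity, back _ _ ?_ ?_⟩
      · field_simp; ring
      · rw [eu, ev, ek]; field_simp; ring

theorem seg_subset_of_cone {o u v k x : Pt} {l m t : ℝ} (l0 : 0 ≤ l) (m0 : 0 ≤ m)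
    (h1 : k.1 - o.1 = l * (u.1 - o.1) + m * (v.1 - o.1))
    (h2 : k.2 - o.2 = l * (u.2 - o.2) + m * (v.2 - o.2)) (t0 : 0 ≤ t) (t1 : t ≤ 1)
    (hx1 : x.1 = o.1 + t * (k.1 - o.1)) (hx2 : x.2 = o.2 + t * (k.2 - o.2)) :
    x ∈ Tri o u v ∨ x ∈ Tri u v k := by
  by_cases h : t * (l + m) ≤ 1
  · left
    refine ⟨1 - t * (l + m), t * l, t * m, by linarith, by positivity, by positivity, by ring,
      ?_, ?_⟩
    · rw [hx1, h1]; ring
    · rw [hx2, h2]; ring
  · right
    rw [not_le] at h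
    have hs : 1 < l + m := by nlinarith
    have hd : 0 < l + m - 1 := by linarith
    have ht : 0 ≤ 1 - t := by linarith
    have hk1 : k.1 = o.1 + (l * (u.1 - o.1) + m * (v.1 - o.1)) := by linarith
    have hk2 : k.2 = o.2 + (l * (u.2 - o.2) + m * (v.2 - o.2)) := by linarith
    refine ⟨(1 - t) * l / (l + m - 1), (1 - t) * m / (l + m - 1),
      (t * (l + m) - 1) / (l + m - 1), by positivity, by positivity,
      div_nonneg (by linarith) hd.le, ?_, ?_, ?_⟩
    · field_simp; ring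
    · rw [hx1, hk1]; field_simp; ring
    · rw [hx2, hk2]; field_simp; ring

/-- The neighbourhood of a good vertex is an interval of its radial order. -/
theorem radial_good {K : Set V} (hfin : K.Finite) (hfree : Disjoint S.C (S.hull K)) {b : V}
    (hb : S.Good K b) (hbK : b ∉ K) {k0 : V} (hk0 : k0 ∈ K) (hnv : ¬ S.Vis b k0) :
    ∃ q : V → Pt, SameOr q S.p K ∧ (∀ u ∈ K, ∀ v ∈ K, u ≠ v → (q u).1 ≠ (q v).1) ∧
      ∀ k ∈ K, ∀ u ∈ K, ∀ v ∈ K, S.Vis b u → S.Vis b v →
        (q u).1 ≤ (q k).1 → (q k).1 ≤ (q v).1 → S.Vis b k := by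
  have hbh : S.p b ∉ S.hull K := by
    intro h
    exact hnv (hfree.symm.mono_left ((convex_convexHull ℝ _).segment_subset h (mem_hull hk0)))
  obtain ⟨a, c, hac⟩ := sep_hull hfin hbh
  obtain ⟨q, h1, h2, h3⟩ := radial (S.p b) hac
  refine ⟨q, h1, ?_, ?_⟩
  · intro u hu v hv huv
    have hne := S.gp b u v (by rintro rfl; exact hbK hu) (by rintro rfl; exact hbK hv) huv
    rcases lt_or_gt_of_ne hne with h | h
    · exact ((h2 v hv u hu).2 (by rw [cr_swap23]; linarith)).ne'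
    · exact ((h2 u hu v hv).2 h).ne
  · intro k hk u hu v hv hbu hbv e1 e2
    obtain ⟨l, m, l0, m0, f1, f2⟩ := h3 u hu v hv k hk e1 e2
    by_contra hcon
    obtain ⟨x, hxC, t, t0, t1, hx1, hx2⟩ := exists_blocked hcon
    rcases seg_subset_of_cone l0 m0 f1 f2 t0.le t1.le hx1 hx2 with h | h
    · exact Set.disjoint_left.1 (hb u hu v hv hbu hbv) hxC h
    · exact Set.disjoint_left.1 hfree hxC (tri_subset_hull hu hv hk h)

theorem gp_on (K : Set V) : GP S.p K := fun a _ b _ c _ => S.gp a b c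

theorem ext_of_good {K : Set V} (hfin : K.Finite) (hfree : Disjoint S.C (S.hull K)) {b : V}
    (hb : S.Good K b) (hbK : b ∉ K) {k0 : V} (hk0 : k0 ∈ K) (hnv : ¬ S.Vis b k0)
    (hv : ∀ k ∈ K, k ≠ k0 → S.Vis b k) : Ext S.p K k0 := by
  obtain ⟨q, h1, h2, h3⟩ := radial_good hfin hfree hb hbK hk0 hnv
  refine h1.ext hk0 (ext_of_side ?_)
  by_contra hcon
  push Not at hcon
  obtain ⟨⟨u, hu, hu1, hu2⟩, ⟨v, hv', hv1, hv2⟩⟩ := hcon
  exact hnv (h3 k0 hk0 u hu v hv' (hv u hu hu1) (hv v hv' hv1) hu2 hv2)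

theorem triple_of_good {K : Set V} (hfin : K.Finite) (hfree : Disjoint S.C (S.hull K)) {b : V}
    (hb : S.Good K b) (hbK : b ∉ K) {k0 : V} (hk0 : k0 ∈ K) (hnv : ¬ S.Vis b k0)
    (hext : ∀ k ∈ K, Ext S.p K k) {x y z : V} (hx : x ∈ K) (hy : y ∈ K) (hz : z ∈ K)
    (hxy : x ≠ y) (hxz : x ≠ z) (hyz : y ≠ z)
    (hv : ∀ k ∈ K, S.Vis b k ↔ k = x ∨ k = y ∨ k = z) :
    HE S.p K x y ∨ HE S.p K y z ∨ HE S.p K x z := by
  obtain ⟨q, h1, h2, h3⟩ := radial_good hfin hfree hb hbK hk0 hnv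
  have hm : ∀ n, (n = x ∨ n = y ∨ n = z) → n ∈ K := by rintro n (rfl | rfl | rfl) <;> assumption
  have := triple_HE (h1.gp (gp_on K)) h2 hx hy hz hxy hxz hyz
    (fun k hk n1 n2 a1 a2 e1 e2 => (hv k hk).1 (h3 k hk n1 (hm _ a1) n2 (hm _ a2)
      ((hv _ (hm _ a1)).2 a1) ((hv _ (hm _ a2)).2 a2) e1 e2))
    (h1.symm.ext hx (hext x hx)) (h1.symm.ext hy (hext y hy)) (h1.symm.ext hz (hext z hz))
  exact this.imp (h1.he hx hy) (Or.imp (h1.he hy hz) (h1.he hx hz))

/-- If `b` sees all of `K1` and nothing of `K2` then the obstacle avoids one of the two hulls. -/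
theorem free_or {K1 K2 : Set V} (hfin : K2.Finite) (h1 : S.IsClq K1) (h2 : S.IsClq K2) {b : V}
    (hb1 : ∀ k ∈ K1, S.Vis b k) (hb2 : ∀ k ∈ K2, ¬ S.Vis b k) :
    Disjoint S.C (S.hull K1) ∨ Disjoint S.C (S.hull K2) := by
  by_contra hcon
  simp only [not_or, Set.not_disjoint_iff] at hcon
  obtain ⟨⟨x, hxC, hx⟩, ⟨y, hyC, hy⟩⟩ := hcon
  have hC2 := hull_sub h2 hyC hy
  obtain ⟨u0, hu0, v0, hv0, w0, hw0, hcr, hsub⟩ := hull_tri h1 hxC hx
  have : ∃ u ∈ K1, ∃ v ∈ K1, x ∈ Tri (S.p b) (S.p u) (S.p v) := by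
    rcases tri_cover (S.p b) hcr (hsub hxC) with h | h | h
    · exact ⟨_, hv0, _, hw0, h⟩
    · exact ⟨_, hw0, _, hu0, h⟩
    · exact ⟨_, hu0, _, hv0, h⟩
  obtain ⟨u, hu, v, hv, hxt⟩ := this
  obtain ⟨hne, hCt⟩ := tri_sub (hb1 u hu) (h1 u hu v hv) (hb1 v hv).symm hxC hxt
  set D := cr (S.p b) (S.p u) (S.p v) with hD
  have hD2 : 0 < D * D := mul_self_pos.2 hne
  have hac : ∀ k ∈ K2, 0 < D * ((S.p v).2 - (S.p u).2) * ((S.p k).1 - (S.p b).1) +
      D * ((S.p u).1 - (S.p v).1) * ((S.p k).2 - (S.p b).2) := by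
    intro k hk
    obtain ⟨z, hzC, t, t0, t1, hz1, hz2⟩ := exists_blocked (hb2 k hk)
    obtain ⟨l, m, n, l0, m0, n0, hs, e1, e2⟩ := hCt hzC
    have hmn : 0 < m + n := by
      by_contra h
      have hm : m = 0 := by linarith
      have hn : n = 0 := by linarith
      have hl : l = 1 := by linarith
      have : z = S.p b := Prod.ext (by rw [e1, hm, hn, hl]; ring) (by rw [e2, hm, hn, hl]; ring)
      exact S.notin b (this ▸ hzC)
    have e : t * (D * ((S.p v).2 - (S.p u).2) * ((S.p k).1 - (S.p b).1) +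
        D * ((S.p u).1 - (S.p v).1) * ((S.p k).2 - (S.p b).2)) = (m + n) * (D * D) := by
      have hl : l = 1 - m - n := by linarith
      have a1 : t * ((S.p k).1 - (S.p b).1) =
          m * ((S.p u).1 - (S.p b).1) + n * ((S.p v).1 - (S.p b).1) := by
        rw [hl] at e1; linarith
      have a2 : t * ((S.p k).2 - (S.p b).2) =
          m * ((S.p u).2 - (S.p b).2) + n * ((S.p v).2 - (S.p b).2) := by
        rw [hl] at e2; linarith
      have hD' : D = ((S.p u).1 - (S.p b).1) * ((S.p v).2 - (S.p b).2) -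
        ((S.p u).2 - (S.p b).2) * ((S.p v).1 - (S.p b).1) := hD
      linear_combination D * ((S.p v).2 - (S.p u).2) * a1 + D * ((S.p u).1 - (S.p v).1) * a2 -
        (m + n) * D * hD'
    have : 0 < t * (D * ((S.p v).2 - (S.p u).2) * ((S.p k).1 - (S.p b).1) +
        D * ((S.p u).1 - (S.p v).1) * ((S.p k).2 - (S.p b).2)) := by rw [e]; positivity
    exact (mul_pos_iff_of_pos_left t0).1 this
  obtain ⟨q, -, hq, -⟩ := radial (S.p b) hac
  have hne2 : K2.Nonempty := by
    by_contra h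
    rw [Set.not_nonempty_iff_eq_empty] at h
    simp [hull, h] at hy
  obtain ⟨k, hk, hmin⟩ := Set.exists_min_image K2 (fun k => (q k).1) hfin hne2
  have hbk : ∀ j ∈ K2, b ≠ j := by rintro j hj rfl; exact hb2 _ hj (vis_refl _)
  have hpos : ∀ j ∈ K2, j ≠ k → 0 < cr (S.p b) (S.p k) (S.p j) := by
    intro j hj hjk
    have hne := S.gp b k j (hbk k hk) (hbk j hj) hjk.symm
    rcases lt_or_gt_of_ne hne with h | h
    · have := (hq j hj k hk).2 (by rw [cr_swap23]; linarith)
      exact absurd (hmin j hj) (not_le.2 this)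
    · exact h
  have hconv : Convex ℝ {z : Pt | z = S.p k ∨ 0 < cr (S.p b) (S.p k) z} := by
    intro z1 hz1 z2 hz2 s t hs ht hst
    have e : cr (S.p b) (S.p k) (s • z1 + t • z2) =
        s * cr (S.p b) (S.p k) z1 + t * cr (S.p b) (S.p k) z2 := by
      have : s = 1 - t := by linarith
      simp only [cr, Prod.fst_add, Prod.snd_add, Prod.smul_fst, Prod.smul_snd, smul_eq_mul, this]
      ring
    have e0 : cr (S.p b) (S.p k) (S.p k) = 0 := by unfold cr; ring
    rcases hs.eq_or_lt with rfl | hs'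
    · have : t = 1 := by linarith
      simpa [this] using hz2
    rcases ht.eq_or_lt with rfl | ht'
    · have : s = 1 := by linarith
      simpa [this] using hz1
    rcases hz1 with rfl | hz1 <;> rcases hz2 with rfl | hz2
    · left; rw [← add_smul, hst, one_smul]
    · right; rw [e, e0]; have := mul_pos ht' hz2; linarith
    · right; rw [e, e0]; have := mul_pos hs' hz1; linarith
    · right; rw [e]; positivity
  have hsub2 : S.hull K2 ⊆ {z : Pt | z = S.p k ∨ 0 < cr (S.p b) (S.p k) z} := by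
    refine convexHull_min ?_ hconv
    rintro _ ⟨j, hj, rfl⟩
    by_cases hjk : j = k
    · exact Or.inl (by rw [hjk])
    · exact Or.inr (hpos j hj hjk)
  obtain ⟨z, hzC, t, t0, t1, hz1, hz2⟩ := exists_blocked (hb2 k hk)
  rcases hsub2 (hC2 hzC) with h | h
  · exact S.notin k (h ▸ hzC)
  · unfold cr at h
    rw [hz1, hz2] at h
    linarith

end Scene

end Pool.Agent.Lib.MP_32fe36_lc
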